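import Pool.Agent.LibKN.Defs

/-! Surfaces: Nakai, base point freeness, rational peeling; row B2. -/

set_option autoImplicit false

open Pool.Agent.LibGMM

namespace Pool.Agent.LibKN

open Pool.Agent.LibK

variable {L : Type} [Field L] [Algebra ℂ L]

theorem secD_mul {P : Set (DVal L)} {D E : P →₀ ℤ} {f g : L} (hf : f ∈ secD P D)
    (hg : g ∈ secD P E) : f * g ∈ secD P (D + E) := by
  intro ν hfg
  have h0 : f ≠ 0 := left_ne_zero_of_mul hfg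
  have h1 : g ≠ 0 := right_ne_zero_of_mul hfg
  have h2 := hf ν h0
  have h3 := hg ν h1
  rw [ν.1.ord_mul _ _ h0 h1, Finsupp.add_apply]
  omega

theorem genAt_mul {P : Set (DVal L)} {x : Subalgebra ℂ L} {D E : P →₀ ℤ} {f g : L}
    (hf : GenAt P x D f) (hg : GenAt P x E g) : GenAt P x (D + E) (f * g) := by
  refine ⟨secD_mul hf.1 hg.1, mul_ne_zero hf.2.1 hg.2.1, fun ν hν => ?_⟩
  have h2 := hf.2.2 ν hν
  have h3 := hg.2.2 ν hν
  rw [ν.1.ord_mul _ _ hf.2.1 hg.2.1, Finsupp.add_apply]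
  omega

theorem genAt_one {P : Set (DVal L)} {x : Subalgebra ℂ L} : GenAt P x (0 : P →₀ ℤ) 1 := by
  have h0 : ∀ ν : P, ν.1.ord (1 : L) + (0 : P →₀ ℤ) ν = 0 := by
    intro ν
    have h1 := ν.1.ord_const 1
    rw [map_one] at h1
    rw [h1, Finsupp.zero_apply, add_zero]
  exact ⟨fun ν _ => (h0 ν).ge, one_ne_zero, fun ν _ => h0 ν⟩

theorem genAt_pow {P : Set (DVal L)} {x : Subalgebra ℂ L} {D : P →₀ ℤ} {f : L}
    (hf : GenAt P x D f) (n : ℕ) : GenAt P x (n • D) (f ^ n) := by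
  induction n with
  | zero =>
    rw [pow_zero, zero_nsmul]
    exact genAt_one
  | succ n ih =>
    rw [pow_succ, succ_nsmul]
    exact genAt_mul ih hf

theorem exists_div (S : SurfA L) {D : S.prm →₀ ℤ} {f : L} (hf : f ∈ secD S.prm D)
    (h0 : f ≠ 0) : ∃ G : S.prm →₀ ℤ, (∀ ν, G ν = ν.1.ord f + D ν) ∧ (∀ ν, 0 ≤ G ν) ∧
      S.cl G = S.cl D := by
  have hfin : {ν : S.prm | ν.1.ord f ≠ 0}.Finite := by
    have h1 := S.finDiv f h0
    refine Set.Finite.of_finite_image (f := Subtype.val) (h1.subset ?_)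
      Subtype.val_injective.injOn
    rintro _ ⟨ν, hν, rfl⟩
    exact ⟨ν.2, hν⟩
  have hG : ∀ ν : S.prm, (Finsupp.ofSupportFinite (fun ν : S.prm => ν.1.ord f) hfin + D) ν =
      ν.1.ord f + D ν := fun ν => rfl
  refine ⟨Finsupp.ofSupportFinite (fun ν : S.prm => ν.1.ord f) hfin + D, hG, fun ν => ?_, ?_⟩
  · rw [hG]
    exact hf ν h0
  · rw [map_add, (S.cl_zero_iff (Finsupp.ofSupportFinite (fun ν : S.prm => ν.1.ord f) hfin)).2
      ⟨f, h0, fun ν => rfl⟩, zero_add]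

theorem exists_sec (S : SurfA L) {D G : S.prm →₀ ℤ} (hG : ∀ ν, 0 ≤ G ν)
    (h : S.cl G = S.cl D) : ∃ f ∈ secD S.prm D, f ≠ 0 ∧ ∀ ν : S.prm, G ν = ν.1.ord f + D ν := by
  obtain ⟨f, hf0, hf⟩ := (S.cl_zero_iff (G - D)).1 (by rw [map_sub, h, sub_self])
  have h1 : ∀ ν : S.prm, G ν = ν.1.ord f + D ν := by
    intro ν
    have h2 := hf ν
    rw [Finsupp.sub_apply] at h2
    omega
  refine ⟨f, fun ν _ => ?_, hf0, h1⟩
  rw [← h1]
  exact hG ν

theorem h0_pos_iff (S : SurfA L) (c : S.Λ) :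
    0 < S.h0 c ↔ ∃ G : S.prm →₀ ℤ, (∀ ν, 0 ≤ G ν) ∧ S.cl G = c := by
  obtain ⟨D, rfl⟩ := S.cl_surj c
  have := S.finSec D
  rw [S.h0_cl D, Module.finrank_pos_iff, Submodule.nontrivial_iff_ne_bot, Submodule.ne_bot_iff]
  constructor
  · rintro ⟨f, hf, h0⟩
    obtain ⟨G, -, hG, hG'⟩ := exists_div S hf h0
    exact ⟨G, hG, hG'⟩
  · rintro ⟨G, hG, hG'⟩
    obtain ⟨f, hf, h0, -⟩ := exists_sec S hG hG'
    exact ⟨f, hf, h0⟩

end Pool.Agent.LibKN
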