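import Pool.Agent.LibKN.Defs

/-! Surfaces: Nakai, base point freeness, rational peeling; row B1. -/

set_option autoImplicit false

open Pool.Agent.LibGMM

namespace Pool.Agent.LibKN

open Pool.Agent.LibK

variable {L : Type} [Field L] [Algebra ℂ L]

theorem s2_nonneg (S : SurfA L) (D : S.Λ) : 0 ≤ s2 S D := by
  unfold s2
  have := S.rr D
  linarith

theorem s2_symm (S : SurfA L) (D : S.Λ) : s2 S (S.K - D) = s2 S D := by
  unfold s2
  rw [sub_sub_cancel]
  have h1 : S.form (S.K - D) (S.K - D - S.K) = S.form D (D - S.K) := by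
    have h2 : S.K - D - S.K = -D := by abel
    rw [h2]
    simp only [map_sub, map_neg, LinearMap.sub_apply]
    rw [S.symm S.K D]
    ring
  rw [h1]
  ring

theorem cl_eq_sum (S : SurfA L) (D : S.prm →₀ ℤ) :
    S.cl D = D.sum fun ν m => m • cc S ν := by
  conv_lhs => rw [← Finsupp.sum_single D]
  rw [Finsupp.sum, map_sum, Finsupp.sum]
  refine Finset.sum_congr rfl fun ν _ => ?_
  rw [cc, ← map_zsmul, Finsupp.smul_single, smul_eq_mul, mul_one]

theorem form_cl (S : SurfA L) (M : S.Λ) (D : S.prm →₀ ℤ) :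
    S.form M (S.cl D) = D.sum fun ν m => m * S.form M (cc S ν) := by
  rw [cl_eq_sum, Finsupp.sum, map_sum, Finsupp.sum]
  refine Finset.sum_congr rfl fun ν _ => ?_
  rw [map_smul, smul_eq_mul]

theorem form_cl_nonneg (S : SurfA L) {M : S.Λ} (hM : Nef S M) {D : S.prm →₀ ℤ}
    (hD : ∀ ν, 0 ≤ D ν) : 0 ≤ S.form M (S.cl D) := by
  rw [form_cl, Finsupp.sum]
  exact Finset.sum_nonneg fun ν _ => mul_nonneg (hD ν) (hM ν)

theorem form_cl_ge (S : SurfA L) {M : S.Λ} (hM : Nef S M) {D : S.prm →₀ ℤ}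
    (hD : ∀ ν, 0 ≤ D ν) (μ : S.prm) : D μ * S.form M (cc S μ) ≤ S.form M (S.cl D) := by
  by_cases h : μ ∈ D.support
  · rw [form_cl, Finsupp.sum]
    exact Finset.single_le_sum (f := fun ν => D ν * S.form M (cc S ν))
      (fun ν _ => mul_nonneg (hD ν) (hM ν)) h
  · rw [Finsupp.notMem_support_iff.1 h, zero_mul]
    exact form_cl_nonneg S hM hD

theorem form_A_pos (S : SurfA L) {D : S.prm →₀ ℤ} (hD : ∀ ν, 0 ≤ D ν) (h0 : D ≠ 0) :
    1 ≤ S.form S.A (S.cl D) := by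
  obtain ⟨μ, hμ⟩ := Finsupp.ne_iff.1 h0
  rw [Finsupp.zero_apply] at hμ
  have h1 : 1 ≤ D μ := by
    have := hD μ
    omega
  have h2 : 1 ≤ S.form S.A (cc S μ) := S.A_pos μ
  have h3 : Nef S S.A := fun ν => by
    have h4 : 1 ≤ S.form S.A (cc S ν) := S.A_pos ν
    linarith
  have h5 := form_cl_ge S h3 hD μ
  nlinarith

theorem form_cc_nonneg (S : SurfA L) {D : S.prm →₀ ℤ} (hD : ∀ ν, 0 ≤ D ν) (μ : S.prm)
    (hμ : D μ = 0) : 0 ≤ S.form (S.cl D) (cc S μ) := by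
  rw [S.symm, form_cl, Finsupp.sum]
  refine Finset.sum_nonneg fun ν hν => mul_nonneg (hD ν) ?_
  refine S.C1' μ ν ?_
  rintro rfl
  exact (Finsupp.mem_support_iff.1 hν) hμ

end Pool.Agent.LibKN
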