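import Pool.Agent.LibKN.Defs
import Pool.Agent.LibKN.B1
import Pool.Agent.LibKN.B2

/-! Surfaces: Nakai, base point freeness, rational peeling; row B3. -/

set_option autoImplicit false

open Pool.Agent.LibGMM

namespace Pool.Agent.LibKN

open Pool.Agent.LibK

variable {L : Type} [Field L] [Algebra ℂ L]

theorem h0_mono (S : SurfA L) (D : S.Λ) {G : S.prm →₀ ℤ} (hG : ∀ ν, 0 ≤ G ν) :
    S.h0 (D - S.cl G) ≤ S.h0 D := by
  obtain ⟨D', rfl⟩ := S.cl_surj D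
  rw [← map_sub, S.h0_cl, S.h0_cl]
  have := S.finSec D'
  apply Submodule.finrank_mono
  intro f hf ν hν
  have h1 := hf ν hν
  have h2 := hG ν
  rw [Finsupp.sub_apply] at h1
  omega

theorem h0_mono_cc (S : SurfA L) (D : S.Λ) (ν : S.prm) : S.h0 (D - cc S ν) ≤ S.h0 D := by
  classical
  refine h0_mono S D (G := Finsupp.single ν 1) fun μ => ?_
  rw [Finsupp.single_apply]
  split_ifs <;> norm_num

theorem h0_eq_zero_of_neg (S : SurfA L) {M c : S.Λ} (hM : Nef S M)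
    (h : S.form M c < 0) : S.h0 c = 0 := by
  by_contra hne
  obtain ⟨G, hG, hc⟩ := (h0_pos_iff S c).1 (Nat.pos_of_ne_zero hne)
  have h1 := form_cl_nonneg S hM hG
  rw [hc] at h1
  omega

theorem A_nef (S : SurfA L) : Nef S S.A := by
  intro ν
  have h1 : 1 ≤ S.form S.A (cc S ν) := S.A_pos ν
  omega

theorem h0_neg_eff (S : SurfA L) {Z : S.prm →₀ ℤ} (hZ : ∀ ν, 0 ≤ Z ν) (h0 : Z ≠ 0) :
    S.h0 (-S.cl Z) = 0 := by
  apply h0_eq_zero_of_neg S (A_nef S)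
  have h1 := form_A_pos S hZ h0
  rw [map_neg]
  omega

theorem A_eff (S : SurfA L) : ∃ G : S.prm →₀ ℤ, (∀ ν, 0 ≤ G ν) ∧ S.cl G = S.A := by
  obtain ⟨x, hx⟩ := S.pts_nonempty
  obtain ⟨D, hD⟩ := S.cl_surj S.A
  obtain ⟨f, hf⟩ := S.A_bpf D hD x hx
  obtain ⟨G, _, hG, hGD⟩ := exists_div S hf.1 hf.2.1
  exact ⟨G, hG, hGD.trans hD⟩

end Pool.Agent.LibKN
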