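import Pool.Agent.LibKN.Defs
import Pool.Agent.LibKN.B1
import Pool.Agent.LibKN.B3

/-! Surfaces: Nakai, base point freeness, rational peeling; row B4. -/

set_option autoImplicit false

open Pool.Agent.LibGMM

namespace Pool.Agent.LibKN

open Pool.Agent.LibK

variable {L : Type} [Field L] [Algebra ℂ L]

theorem form_A_nef_pos (S : SurfA L) {H : S.Λ} (hH : Nef S H) (hHH : 0 < S.form H H) :
    1 ≤ S.form S.A H := by
  obtain ⟨G, hG, hGA⟩ := A_eff S
  have h := form_cl_nonneg S hH hG
  rw [hGA, S.symm] at h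
  rcases h.lt_or_eq with h1 | h1
  · omega
  · exfalso
    have h2 : H ≠ 0 := by
      rintro rfl
      simp at hHH
    have := S.hodge H h1.symm h2
    omega

theorem exists_large (S : SurfA L) {H : S.Λ} (hH : Nef S H) (hHH : 0 < S.form H H)
    (F : S.Λ) : ∃ k0 : ℕ, ∀ k : ℕ, k0 ≤ k → S.h0 (S.K - (k • H + F)) = 0 ∧ 0 < S.h0 (k • H + F) := by
  have hA := form_A_nef_pos S hH hHH
  refine ⟨(|S.form S.A S.K - S.form S.A F| + |2 * S.form H F - S.form H S.K| +
    |S.form F F - S.form F S.K| + 1).toNat, fun k hk => ?_⟩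
  have hk' : |S.form S.A S.K - S.form S.A F| + |2 * S.form H F - S.form H S.K| +
      |S.form F F - S.form F S.K| + 1 ≤ (k : ℤ) := by
    have := Int.toNat_le.1 hk
    exact this
  have h1 := le_abs_self (S.form S.A S.K - S.form S.A F)
  have h2 := neg_abs_le (2 * S.form H F - S.form H S.K)
  have h3 := neg_abs_le (S.form F F - S.form F S.K)
  have a1 := abs_nonneg (S.form S.A S.K - S.form S.A F)
  have a2 := abs_nonneg (2 * S.form H F - S.form H S.K)
  have a3 := abs_nonneg (S.form F F - S.form F S.K)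
  set k' : ℤ := (k : ℤ) with hk'def
  have hkpos : 0 ≤ k' := by omega
  have e1 : S.h0 (S.K - (k • H + F)) = 0 := by
    apply h0_eq_zero_of_neg S (A_nef S)
    simp only [map_add, map_sub, map_nsmul, nsmul_eq_mul]
    rw [← hk'def]
    nlinarith
  refine ⟨e1, ?_⟩
  have h4 := S.rr (k • H + F)
  rw [e1] at h4
  have e2 : S.form (k • H + F) (k • H + F - S.K) = k' ^ 2 * S.form H H +
      k' * (2 * S.form H F - S.form H S.K) + (S.form F F - S.form F S.K) := by
    simp only [map_add, map_sub, map_nsmul, LinearMap.add_apply, LinearMap.smul_apply,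
      nsmul_eq_mul, smul_eq_mul]
    rw [S.symm F H]
    rw [← hk'def]
    ring
  rw [e2] at h4
  have h5 : 0 < k' ^ 2 * S.form H H +
      k' * (2 * S.form H F - S.form H S.K) + (S.form F F - S.form F S.K) := by
    have h6 : k' ^ 2 ≤ k' ^ 2 * S.form H H := by nlinarith [sq_nonneg k']
    have h7 : k' * (-|2 * S.form H F - S.form H S.K|) ≤
        k' * (2 * S.form H F - S.form H S.K) := mul_le_mul_of_nonneg_left h2 hkpos
    have h8 : |S.form F F - S.form F S.K| + 1 ≤
        k' - |2 * S.form H F - S.form H S.K| := by omega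
    have h9 : 1 ≤ k' := by omega
    have h10 : k' * (|S.form F F - S.form F S.K| + 1) ≤
        k' * (k' - |2 * S.form H F - S.form H S.K|) := mul_le_mul_of_nonneg_left h8 hkpos
    have h11 : |S.form F F - S.form F S.K| + 1 ≤ k' * (|S.form F F - S.form F S.K| + 1) := by
      nlinarith
    nlinarith
  have h6 : (0 : ℤ) < (S.h0 (k • H + F) : ℤ) := by
    have : ((0 : ℕ) : ℤ) = 0 := rfl
    omega
  exact_mod_cast h6

end Pool.Agent.LibKN
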