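import Pool.Agent.LibKN.Defs
import Pool.Agent.LibKN.B3

/-! Surfaces: Nakai, base point freeness, rational peeling; row C1. -/

set_option autoImplicit false

open Pool.Agent.LibGMM

namespace Pool.Agent.LibKN

open Pool.Agent.LibK

variable {L : Type} [Field L] [Algebra ℂ L]

theorem s2_step (S : SurfA L) (ν : S.prm) (D : S.Λ)
    (h : 2 * (S.h0 D : ℤ) ≤ 2 * S.h0 (D - cc S ν) + 2 * S.form D (cc S ν) -
      S.form (cc S ν) (cc S ν) - S.form S.K (cc S ν)) : s2 S D ≤ s2 S (D - cc S ν) := by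
  unfold s2
  have h1 := h0_mono_cc S (S.K - (D - cc S ν)) ν
  have h2 : S.K - (D - cc S ν) - cc S ν = S.K - D := by abel
  rw [h2] at h1
  have h3 : S.form (D - cc S ν) (D - cc S ν - S.K) =
      S.form D (D - S.K) - 2 * S.form D (cc S ν) + S.form (cc S ν) (cc S ν) + S.form S.K (cc S ν) := by
    simp only [map_sub, LinearMap.sub_apply]
    rw [S.symm (cc S ν) D, S.symm (cc S ν) S.K]
    ring
  rw [h3]
  have h4 : (S.h0 (S.K - D) : ℤ) ≤ S.h0 (S.K - (D - cc S ν)) := by exact_mod_cast h1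
  linarith

theorem s2_step_C4 (S : SurfA L) (ν : S.prm) :
    ∃ c0 : ℤ, ∀ D : S.Λ, c0 ≤ S.form D (cc S ν) → s2 S D ≤ s2 S (D - cc S ν) := by
  obtain ⟨c0, h⟩ := S.C4 ν
  exact ⟨c0, fun D hD => s2_step S ν D (h D hD)⟩

theorem s2_step_rat (S : SurfA L) (ν : S.prm)
    (hν : 2 + S.form (cc S ν) (cc S ν) + S.form S.K (cc S ν) = 0) (D : S.Λ)
    (hD : -1 ≤ S.form D (cc S ν)) : s2 S D ≤ s2 S (D - cc S ν) := by
  apply s2_step
  by_cases h : S.form D (cc S ν) < 0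
  · have h1 : S.h0 D = S.h0 (D - cc S ν) := S.C1 ν D h
    have h2 : S.form D (cc S ν) = -1 := by omega
    rw [← h1, h2]
    linarith
  · have h1 : (S.h0 D : ℤ) ≤ S.h0 (D - cc S ν) + S.form D (cc S ν) + 1 := S.C2 ν D (not_lt.1 h)
    linarith

end Pool.Agent.LibKN
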