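import Pool.Agent.LibKN.Defs
import Pool.Agent.LibKN.B3
import Pool.Agent.LibKN.C1

/-! Surfaces: Nakai, base point freeness, rational peeling; row C2. -/

set_option autoImplicit false

open Pool.Agent.LibGMM

namespace Pool.Agent.LibKN

open Pool.Agent.LibK

variable {L : Type} [Field L] [Algebra ℂ L]

private theorem C2_aux (S : SurfA L) {H : S.Λ} (hH : ∀ ν : S.prm, 1 ≤ S.form H (cc S ν)) (F : S.Λ) :
    ∀ (n : ℕ) (G : S.prm →₀ ℤ), (∀ ν, 0 ≤ G ν) → G.sum (fun _ m => m) = n →
      ∃ m0 : ℕ, ∀ m : ℕ, m0 ≤ m → ∀ j : ℕ,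
        s2 S (m • H + j • S.A + F + S.cl G) ≤ s2 S (m • H + j • S.A + F) := by
  classical
  intro n
  induction n with
  | zero =>
    intro G hG hn
    have hG0 : G = 0 := by
      ext ν
      by_contra h
      have h1 : ν ∈ G.support := Finsupp.mem_support_iff.2 h
      have h2 : G ν ≤ G.sum (fun _ m => m) := by
        rw [Finsupp.sum]
        exact Finset.single_le_sum (f := fun ν => G ν) (fun μ _ => hG μ) h1
      have h3 := hG ν
      rw [hn] at h2
      push_cast at h2
      apply h
      rw [Finsupp.zero_apply]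
      omega
    refine ⟨0, fun m _ j => ?_⟩
    rw [hG0, map_zero, add_zero]
  | succ n ih =>
    intro G hG hn
    have hex : ∃ ν, 0 < G ν := by
      by_contra h
      push Not at h
      have h1 : G = 0 := by
        ext ν
        have h2 := hG ν
        have h3 := h ν
        rw [Finsupp.zero_apply]
        omega
      rw [h1, Finsupp.sum_zero_index] at hn
      push_cast at hn
      omega
    obtain ⟨ν, hν⟩ := hex
    set G1 : S.prm →₀ ℤ := G - Finsupp.single ν 1 with hG1
    have hGG : G = G1 + Finsupp.single ν 1 := by rw [hG1, sub_add_cancel]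
    have hG1n : ∀ μ, 0 ≤ G1 μ := by
      intro μ
      rw [hG1, Finsupp.sub_apply]
      by_cases h5 : μ = ν
      · subst h5
        rw [Finsupp.single_eq_same]
        omega
      · rw [Finsupp.single_eq_of_ne h5]
        have := hG μ
        omega
    have hsum : G1.sum (fun _ m => m) = n := by
      have h1 : G.sum (fun _ m => m) = G1.sum (fun _ m => m) + 1 := by
        conv_lhs => rw [hGG]
        rw [Finsupp.sum_add_index' (by simp) (by simp), Finsupp.sum_single_index rfl]
      rw [hn] at h1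
      push_cast at h1
      omega
    obtain ⟨m1, hm1⟩ := ih G1 hG1n hsum
    obtain ⟨c0, hc0⟩ := s2_step_C4 S ν
    refine ⟨max m1 (c0 - S.form (F + S.cl G) (cc S ν)).toNat, fun m hm j => ?_⟩
    have h1 : m1 ≤ m := (le_max_left _ _).trans hm
    have h2 : (c0 - S.form (F + S.cl G) (cc S ν)).toNat ≤ m := (le_max_right _ _).trans hm
    have h3 : c0 - S.form (F + S.cl G) (cc S ν) ≤ m := by
      have := Int.self_le_toNat (c0 - S.form (F + S.cl G) (cc S ν))
      omega
    have h4 := hH ν
    have h5 : 0 ≤ S.form S.A (cc S ν) := A_nef S ν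
    have h6 : S.form (m • H + j • S.A + F + S.cl G) (cc S ν) =
        m * S.form H (cc S ν) + j * S.form S.A (cc S ν) + S.form (F + S.cl G) (cc S ν) := by
      simp only [map_add, map_nsmul, LinearMap.add_apply, LinearMap.smul_apply, nsmul_eq_mul]
      ring
    have h7 : c0 ≤ S.form (m • H + j • S.A + F + S.cl G) (cc S ν) := by
      rw [h6]
      have h8 : (m : ℤ) ≤ m * S.form H (cc S ν) := by
        have : (0 : ℤ) ≤ m := Nat.cast_nonneg _
        nlinarith
      have h9 : (0 : ℤ) ≤ j * S.form S.A (cc S ν) := by positivity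
      omega
    have h8 := hc0 _ h7
    have h9 : m • H + j • S.A + F + S.cl G - cc S ν = m • H + j • S.A + F + S.cl G1 := by
      conv_lhs => rw [hGG]
      rw [map_add]
      unfold cc
      abel
    rw [h9] at h8
    exact h8.trans (hm1 m h1 j)

theorem nakai_add (S : SurfA L) {H : S.Λ} (hH : ∀ ν : S.prm, 1 ≤ S.form H (cc S ν))
    {G : S.prm →₀ ℤ} (hG : ∀ ν, 0 ≤ G ν) (F : S.Λ) : ∃ m0 : ℕ, ∀ m : ℕ, m0 ≤ m → ∀ j : ℕ,
      s2 S (m • H + j • S.A + F + S.cl G) ≤ s2 S (m • H + j • S.A + F) := by
  have h0 : 0 ≤ G.sum (fun _ m => m) := by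
    rw [Finsupp.sum]
    exact Finset.sum_nonneg fun ν _ => hG ν
  exact C2_aux S hH F (G.sum (fun _ m => m)).toNat G hG (Int.toNat_of_nonneg h0).symm

end Pool.Agent.LibKN
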