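import Pool.Agent.LibKN.Defs
import Pool.Agent.LibKN.B1
import Pool.Agent.LibKN.B2
import Pool.Agent.LibKN.B4
import Pool.Agent.LibKN.C2

/-! Surfaces: Nakai, base point freeness, rational peeling; row C3. -/

set_option autoImplicit false

open Pool.Agent.LibGMM

namespace Pool.Agent.LibKN

open Pool.Agent.LibK

variable {L : Type} [Field L] [Algebra ℂ L]

theorem nakai_vanish (S : SurfA L) {H : S.Λ} (hH : ∀ ν : S.prm, 1 ≤ S.form H (cc S ν))
    (hHH : 0 < S.form H H) (F : S.Λ) : ∃ m1 : ℕ, ∀ m : ℕ, m1 ≤ m → s2 S (m • H + F) = 0 := by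
  have hnef : Nef S H := fun ν => by
    have := hH ν
    linarith
  obtain ⟨k0, hk0⟩ := exists_large S hnef hHH (-S.A)
  obtain ⟨k, hk⟩ : ∃ k, k = max k0 1 := ⟨_, rfl⟩
  have hk1 : 1 ≤ k := by
    rw [hk]
    exact le_max_right _ _
  have hkk : k0 ≤ k := by
    rw [hk]
    exact le_max_left _ _
  obtain ⟨G, hG, hGc⟩ := (h0_pos_iff S _).1 (hk0 k hkk).2
  obtain ⟨m0, hm0⟩ := nakai_add S hH hG (F + S.A)
  have hstep : ∀ m : ℕ, m0 ≤ m → ∀ j : ℕ, s2 S ((m + k) • H + j • S.A + F) ≤ s2 S (m • H + (j + 1) • S.A + F) := by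
    intro m hm j
    have h1 := hm0 m hm j
    rw [hGc] at h1
    have h2 : m • H + j • S.A + (F + S.A) + (k • H + -S.A) = (m + k) • H + j • S.A + F := by
      rw [add_smul]
      abel
    have h3 : m • H + j • S.A + (F + S.A) = m • H + (j + 1) • S.A + F := by
      rw [add_smul, one_smul]
      abel
    rw [h2, h3] at h1
    exact h1
  have hind : ∀ i m j : ℕ, m0 ≤ m → s2 S ((m + k * i) • H + j • S.A + F) ≤ s2 S (m • H + (j + i) • S.A + F) := by
    intro i
    induction i with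
    | zero =>
      intro m j hm
      rw [mul_zero, add_zero, add_zero]
    | succ i ih =>
      intro m j hm
      have h1 := ih (m + k) j (by omega)
      have h2 := hstep m hm (j + i)
      have h3 : m + k * (i + 1) = m + k + k * i := by ring
      rw [h3]
      exact h1.trans h2
  have hser : ∀ r : ℕ, ∃ n0 : ℕ, ∀ n : ℕ, n0 ≤ n → s2 S ((m0 + r) • H + n • S.A + F) = 0 := by
    intro r
    obtain ⟨n0, hn0⟩ := S.serre ((m0 + r) • H + F)
    refine ⟨n0, fun n hn => ?_⟩
    obtain ⟨h1, h2, -⟩ := hn0 n hn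
    have h3 : (m0 + r) • H + n • S.A + F = n • S.A + ((m0 + r) • H + F) := by abel
    rw [h3]
    unfold s2
    rw [h1]
    push_cast
    linarith
  choose nr hnr using hser
  refine ⟨m0 + k * (Finset.range k).sup nr, fun m hm => ?_⟩
  obtain ⟨i, hi⟩ : ∃ i, i = (m - m0) / k := ⟨_, rfl⟩
  obtain ⟨r, hr⟩ : ∃ r, r = (m - m0) % k := ⟨_, rfl⟩
  have h1 : k * i + r = m - m0 := by
    rw [hi, hr]
    exact Nat.div_add_mod _ _
  have hrk : r < k := by
    rw [hr]
    exact Nat.mod_lt _ (by omega)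
  have h2 : m = m0 + r + k * i := by
    have : m0 ≤ m := le_trans (Nat.le_add_right _ _) hm
    omega
  have h3 : (Finset.range k).sup nr ≤ i := by
    rw [hi, Nat.le_div_iff_mul_le (by omega), mul_comm]
    omega
  have h4 : nr r ≤ i := le_trans (Finset.le_sup (f := nr) (Finset.mem_range.2 hrk)) h3
  have h5 := hind i (m0 + r) 0 (by omega)
  rw [← h2, zero_add, hnr r i h4, zero_smul, add_zero] at h5
  exact le_antisymm h5 (s2_nonneg S _)

end Pool.Agent.LibKN
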