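import Pool.Agent.LibKN.Defs
import Pool.Agent.LibKN.B1
import Pool.Agent.LibKN.B2
import Pool.Agent.LibKN.B4

/-! Surfaces: Nakai, base point freeness, rational peeling; row C4. -/

set_option autoImplicit false

open Pool.Agent.LibGMM

namespace Pool.Agent.LibKN

open Pool.Agent.LibK

variable {L : Type} [Field L] [Algebra ℂ L]

theorem nakai_bound (S : SurfA L) {H : S.Λ} (hH : ∀ ν : S.prm, 1 ≤ S.form H (cc S ν))
    (hHH : 0 < S.form H H) (B : S.Λ) : ∃ a0 : ℕ, ∀ a : ℕ, a0 ≤ a → ∀ ν : S.prm,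
      S.form B (cc S ν) ≤ S.form (a • H) (cc S ν) := by
  have hnef : Nef S H := fun ν => by
    have := hH ν
    linarith
  obtain ⟨k0, hk0⟩ := exists_large S hnef hHH (-B)
  obtain ⟨G, hG, hGc⟩ := (h0_pos_iff S _).1 (hk0 k0 le_rfl).2
  refine ⟨k0 + ∑ ν ∈ G.support, (S.form B (cc S ν)).toNat, fun a ha ν => ?_⟩
  have hHν := hH ν
  rw [map_nsmul, LinearMap.smul_apply, nsmul_eq_mul]
  by_cases h : ν ∈ G.support
  · have h1 : (S.form B (cc S ν)).toNat ≤ ∑ ν ∈ G.support, (S.form B (cc S ν)).toNat :=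
      Finset.single_le_sum (f := fun ν => (S.form B (cc S ν)).toNat) (fun _ _ => Nat.zero_le _) h
    have h2 : S.form B (cc S ν) ≤ a := by
      have h3 := Int.self_le_toNat (S.form B (cc S ν))
      have h4 : (S.form B (cc S ν)).toNat ≤ a := by omega
      have h5 : ((S.form B (cc S ν)).toNat : ℤ) ≤ a := by exact_mod_cast h4
      linarith
    have h6 : (0 : ℤ) ≤ a := Int.natCast_nonneg a
    nlinarith
  · have h1 := form_cc_nonneg S hG ν (Finsupp.notMem_support_iff.1 h)
    rw [hGc, map_add, map_nsmul, map_neg, LinearMap.add_apply, LinearMap.smul_apply, LinearMap.neg_apply,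
      nsmul_eq_mul] at h1
    have h2 : (k0 : ℤ) ≤ a := by
      have : k0 ≤ a := by omega
      exact_mod_cast this
    nlinarith

end Pool.Agent.LibKN
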