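import Pool.Agent.LibKN.Defs

/-! Surfaces: Nakai, base point freeness, rational peeling; row D1. -/

set_option autoImplicit false

open Pool.Agent.LibGMM

namespace Pool.Agent.LibKN

open Pool.Agent.LibK

variable {L : Type} [Field L] [Algebra ℂ L]

theorem bl_old_mem {S S' : SurfA L} {x : Subalgebra ℂ L} (β : BlowUp S x S') (ν : S.prm) :
    ν.1 ∈ S'.prm := by
  rw [β.prm_eq]
  exact Set.mem_insert_of_mem _ ν.2

theorem bl_E_mem {S S' : SurfA L} {x : Subalgebra ℂ L} (β : BlowUp S x S') :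
    β.E ∈ S'.prm := by
  rw [β.prm_eq]
  exact Set.mem_insert _ _

theorem bl_cases {S S' : SurfA L} {x : Subalgebra ℂ L} (β : BlowUp S x S') (ν : S'.prm) :
    ν = ⟨β.E, bl_E_mem β⟩ ∨ ∃ μ : S.prm, ν = ⟨μ.1, bl_old_mem β μ⟩ := by
  have h : ν.1 ∈ insert β.E S.prm := by
    rw [← β.prm_eq]
    exact ν.2
  rcases h with h | h
  · exact Or.inl (Subtype.ext h)
  · exact Or.inr ⟨⟨ν.1, h⟩, Subtype.ext rfl⟩

theorem bl_form_E {S S' : SurfA L} {x : Subalgebra ℂ L} (β : BlowUp S x S') (D : S.Λ)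
    (j : ℤ) : S'.form (β.φ (D, j)) (cc S' ⟨β.E, bl_E_mem β⟩) = -j := by
  unfold cc
  rw [β.cl_E, β.form_eq]
  simp

theorem bl_form_old {S S' : SurfA L} {x : Subalgebra ℂ L} (β : BlowUp S x S') (D : S.Λ)
    (j : ℤ) (ν : S.prm) : S'.form (β.φ (D, j)) (cc S' ⟨ν.1, bl_old_mem β ν⟩) =
      S.form D (cc S ν) + j * β.mult ν := by
  unfold cc
  rw [β.cl_old ν, β.form_eq]
  simp only
  ring

theorem bl_E_rat {S S' : SurfA L} {x : Subalgebra ℂ L} (β : BlowUp S x S') :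
    2 + S'.form (cc S' ⟨β.E, bl_E_mem β⟩) (cc S' ⟨β.E, bl_E_mem β⟩) +
      S'.form S'.K (cc S' ⟨β.E, bl_E_mem β⟩) = 0 := by
  rw [β.K_eq, bl_form_E]
  have h : cc S' ⟨β.E, bl_E_mem β⟩ = β.φ (0, 1) := β.cl_E _
  have h2 : S'.form (cc S' ⟨β.E, bl_E_mem β⟩) (cc S' ⟨β.E, bl_E_mem β⟩) = -1 := by
    conv_lhs => arg 1; rw [h]
    rw [bl_form_E]
  rw [h2]
  norm_num

theorem mult_bound {S S' : SurfA L} {x : Subalgebra ℂ L} (β : BlowUp S x S') :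
    ∃ B : S.Λ, ∀ ν : S.prm, (β.mult ν : ℤ) + 1 ≤ S.form B (cc S ν) := by
  obtain ⟨⟨B, j⟩, hB⟩ := β.φ.surjective S'.A
  refine ⟨B, fun ν => ?_⟩
  have h1 := S'.A_pos ⟨β.E, bl_E_mem β⟩
  have h2 := S'.A_pos ⟨ν.1, bl_old_mem β ν⟩
  rw [← hB] at h1 h2
  have h3 := bl_form_E β B j
  have h4 := bl_form_old β B j ν
  unfold cc at h3 h4
  rw [h3] at h1
  rw [h4] at h2
  unfold cc
  have h5 : (0 : ℤ) ≤ β.mult ν := Nat.cast_nonneg _
  nlinarith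

end Pool.Agent.LibKN
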