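import Pool.Agent.LibKN.Defs
import Pool.Agent.LibKN.B1
import Pool.Agent.LibKN.B4
import Pool.Agent.LibKN.C1
import Pool.Agent.LibKN.C3
import Pool.Agent.LibKN.C4
import Pool.Agent.LibKN.D1

/-! Surfaces: Nakai, base point freeness, rational peeling; row D2. -/

set_option autoImplicit false

open Pool.Agent.LibGMM

namespace Pool.Agent.LibKN

open Pool.Agent.LibK

variable {L : Type} [Field L] [Algebra ℂ L]

theorem nakai_point {𝒮 : SurfA L → Prop} (h𝒮 : BlowUpClosed 𝒮) {S : SurfA L} (hS : 𝒮 S)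
    {x : Subalgebra ℂ L} (hx : x ∈ S.pts) {D : S.prm →₀ ℤ}
    (hH : ∀ ν : S.prm, 1 ≤ S.form (S.cl D) (cc S ν)) (hHH : 0 < S.form (S.cl D) (S.cl D)) :
    ∃ a : ℕ, 1 ≤ a ∧ ∃ f, GenAt S.prm x (a • D) f := by
  classical
  obtain ⟨S', hS', ⟨β⟩⟩ := h𝒮 S hS x hx
  set H := S.cl D with hHdef
  obtain ⟨B, hB⟩ := mult_bound β
  obtain ⟨a0, ha0⟩ := nakai_bound S hH hHH B
  set a := max a0 2 with ha
  have ha2 : 2 ≤ a := le_max_right _ _
  have ha1 : a0 ≤ a := le_max_left _ _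
  set H' := β.φ (a • H, -1) with hH'def
  -- positivity on the blow-up
  have hH' : ∀ ν : S'.prm, 1 ≤ S'.form H' (cc S' ν) := by
    intro ν
    rcases bl_cases β ν with rfl | ⟨μ, rfl⟩
    · rw [hH'def, bl_form_E]
      norm_num
    · rw [hH'def, bl_form_old]
      have h1 := ha0 a ha1 μ
      have h2 := hB μ
      linarith
  have hHH' : 0 < S'.form H' H' := by
    rw [hH'def, β.form_eq]
    have h1 : S.form (a • H) (a • H) = (a : ℤ) * ((a : ℤ) * S.form H H) := by
      rw [map_nsmul, map_nsmul, LinearMap.smul_apply, nsmul_eq_mul, nsmul_eq_mul]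
    change 0 < S.form (a • H) (a • H) - (-1) * (-1)
    rw [h1]
    have h2 : (2 : ℤ) ≤ a := by exact_mod_cast ha2
    have h3 : (2 : ℤ) * 1 ≤ (a : ℤ) * S.form H H := mul_le_mul h2 (by omega) (by norm_num) (by omega)
    have h4 : (2 : ℤ) * 2 ≤ (a : ℤ) * ((a : ℤ) * S.form H H) :=
      mul_le_mul h2 (by omega) (by norm_num) (by omega)
    omega
  obtain ⟨m1, hm1⟩ := nakai_vanish S' hH' hHH' 0
  obtain ⟨m2, hm2⟩ := nakai_vanish S hH hHH 0
  obtain ⟨m3, hm3⟩ := exists_large S (H := H) (fun ν => by have := hH ν; omega) hHH 0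
  set m := max (max m1 1) (max m2 m3) with hm
  have hmm1 : m1 ≤ m := (le_max_left _ _).trans (le_max_left _ _)
  have hm1' : 1 ≤ m := (le_max_right _ _).trans (le_max_left _ _)
  have hmm2 : m2 ≤ m := (le_max_left _ _).trans (le_max_right _ _)
  have hmm3 : m3 ≤ m := (le_max_right _ _).trans (le_max_right _ _)
  have hma : m ≤ m * a := Nat.le_mul_of_pos_right _ (by omega)
  set M := (m * a) • H with hM
  -- peeling
  have hpeel : ∀ j : ℕ, s2 S' (β.φ (M, -(1 : ℤ))) ≤ s2 S' (β.φ (M, -((j : ℤ) + 1))) := by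
    intro j
    induction j with
    | zero => simp
    | succ j ih =>
      refine ih.trans ?_
      have h1 := s2_step_rat S' ⟨β.E, bl_E_mem β⟩ (bl_E_rat β) (β.φ (M, -((j : ℤ) + 1))) (by
        rw [bl_form_E]; omega)
      refine h1.trans (le_of_eq ?_)
      congr 1
      have h2 : cc S' ⟨β.E, bl_E_mem β⟩ = β.φ (0, 1) := β.cl_E (bl_E_mem β)
      rw [h2, ← map_sub]
      congr 1
      ext
      · simp
      · push_cast; simp; ring
  have hmH' : m • H' = β.φ (M, -(m : ℤ)) := by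
    rw [hH'def, ← map_nsmul]
    congr 1
    ext
    · change m • (a • H) = M
      rw [hM, mul_smul]
    · simp
  have hs' : s2 S' (β.φ (M, -(1 : ℤ))) = 0 := by
    refine le_antisymm ?_ (s2_nonneg _ _)
    have h1 := hpeel (m - 1)
    have h2 : ((m - 1 : ℕ) : ℤ) + 1 = m := by omega
    rw [h2, ← hmH'] at h1
    have h3 := hm1 m hmm1
    rw [add_zero] at h3
    rw [h3] at h1
    exact h1
  have hs : s2 S M = 0 := by
    have h3 := hm2 (m * a) (hmm2.trans hma)
    rw [add_zero] at h3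
    exact h3
  have hK : S.h0 (S.K - M) = 0 := by
    have h3 := (hm3 (m * a) (hmm3.trans hma)).1
    rw [add_zero] at h3
    exact h3
  have hK' : S'.h0 (S'.K - β.φ (M, -(1 : ℤ))) = 0 := by
    have h1 : S'.K - β.φ (M, -(1 : ℤ)) = β.φ (S.K - M, ((2 : ℕ) : ℤ)) := by
      rw [β.K_eq, ← map_sub]
      congr 1
    rw [h1, β.h0_nonneg, hK]
  have hlt : S'.h0 (β.φ (M, -(1 : ℤ))) < S.h0 M := by
    unfold s2 at hs hs'
    rw [hK'] at hs'
    rw [hK] at hs
    have h1 : S'.form (β.φ (M, -(1 : ℤ))) (β.φ (M, -(1 : ℤ)) - S'.K) = S.form M (M - S.K) - 2 := by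
      rw [β.K_eq, ← map_sub, β.form_eq]
      change S.form M (M - S.K) - (-1) * (-1 - 1) = _
      ring
    rw [h1] at hs'
    omega
  have hMD : M = S.cl ((m * a) • D) := by
    rw [hM, hHdef, map_nsmul]
  rw [hMD] at hlt
  exact ⟨m * a, by
    have : 1 * 1 ≤ m * a := Nat.mul_le_mul hm1' (by omega)
    omega, (β.h0_neg _).1 hlt⟩

end Pool.Agent.LibKN
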