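import Pool.Agent.LibKN.Defs
import Pool.Agent.LibKN.B1
import Pool.Agent.LibKN.D1

/-! Surfaces: Nakai, base point freeness, rational peeling; row E1. -/

set_option autoImplicit false

open Pool.Agent.LibGMM

namespace Pool.Agent.LibKN

open Pool.Agent.LibK

variable {L : Type} [Field L] [Algebra ℂ L]

theorem bl_transform {S S' : SurfA L} {x : Subalgebra ℂ L} (β : BlowUp S x S')
    (D : S.prm →₀ ℤ) : ∃ D' : S'.prm →₀ ℤ, (∀ μ : S.prm, D' ⟨μ.1, bl_old_mem β μ⟩ = D μ) ∧
      D' ⟨β.E, bl_E_mem β⟩ = 0 ∧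
      S'.cl D' = β.φ (S.cl D, -(D.sum fun ν m => m * (β.mult ν : ℤ))) := by
  classical
  set ι : S.prm → S'.prm := fun μ => ⟨μ.1, bl_old_mem β μ⟩ with hι
  have hinj : Function.Injective ι := by
    intro μ ν h
    apply Subtype.ext
    exact congrArg (fun z : S'.prm => z.1) h
  refine ⟨D.mapDomain ι, fun μ => ?_, ?_, ?_⟩
  · exact Finsupp.mapDomain_apply hinj D μ
  · apply Finsupp.mapDomain_of_notMem_range
    rintro ⟨μ, hμ⟩
    have h1 : μ.1 = β.E := congrArg (fun z : S'.prm => z.1) hμ
    apply β.E_notMem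
    rw [← h1]
    exact μ.2
  · induction D using Finsupp.induction_linear with
    | zero =>
      rw [Finsupp.mapDomain_zero, map_zero, map_zero, Finsupp.sum_zero_index, neg_zero]
      exact (map_zero β.φ).symm
    | add f g hf hg =>
      rw [Finsupp.mapDomain_add, map_add, map_add, hf, hg, ← map_add,
        Finsupp.sum_add_index']
      · congr 1
        rw [Prod.mk_add_mk]
        congr 1
        ring
      · intro a; simp
      · intro a b c; ring
    | single μ m =>
      rw [Finsupp.mapDomain_single, Finsupp.sum_single_index (by simp)]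
      have h1 : Finsupp.single (ι μ) m = m • Finsupp.single (ι μ) (1 : ℤ) := by
        rw [Finsupp.smul_single, smul_eq_mul, mul_one]
      have h2 : Finsupp.single μ m = m • Finsupp.single μ (1 : ℤ) := by
        rw [Finsupp.smul_single, smul_eq_mul, mul_one]
      have h3 : S'.cl (Finsupp.single (ι μ) 1) = β.φ (S.cl (Finsupp.single μ 1), -(β.mult μ : ℤ)) :=
        β.cl_old μ _
      rw [h1, map_zsmul, h3, h2, map_zsmul S.cl]
      have h4 : m • β.φ (S.cl (Finsupp.single μ 1), -(β.mult μ : ℤ)) =
          β.φ (m • (S.cl (Finsupp.single μ 1), -(β.mult μ : ℤ))) := (map_zsmul β.φ m _).symm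
      rw [h4, Prod.smul_mk]
      congr 1
      rw [smul_eq_mul, mul_neg]

end Pool.Agent.LibKN
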