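import Pool.Agent.LibKN.Defs
import Pool.Agent.LibKN.D1
import Pool.Agent.LibKN.E1

/-! Surfaces: Nakai, base point freeness, rational peeling; row E2. -/

set_option autoImplicit false

open Pool.Agent.LibGMM

namespace Pool.Agent.LibKN

open Pool.Agent.LibK

variable {L : Type} [Field L] [Algebra ℂ L]

theorem E2_pos {S S' : SurfA L} {x : Subalgebra ℂ L} (β : BlowUp S x S') (D : S.prm →₀ ℤ)
    (hD : ∀ ν, 0 ≤ D ν) (h : ∃ ν : S.prm, Thr x ν.1 ∧ 0 < D ν) :
    1 ≤ D.sum fun ν m => m * (β.mult ν : ℤ) := by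
  obtain ⟨ν, h1, h2⟩ := h
  have h3 : 0 < β.mult ν := (β.mult_pos ν).2 h1
  have h4 : D ν * (β.mult ν : ℤ) ≤ D.sum fun ν m => m * (β.mult ν : ℤ) := by
    rw [Finsupp.sum]
    refine Finset.single_le_sum (f := fun ν => D ν * (β.mult ν : ℤ)) ?_ ?_
    · intro μ _
      exact mul_nonneg (hD μ) (by positivity)
    · rw [Finsupp.mem_support_iff]
      omega
  have h5 : (1:ℤ) ≤ D ν * (β.mult ν : ℤ) := by
    have h6 : (1:ℤ) ≤ (β.mult ν : ℤ) := by exact_mod_cast h3
    nlinarith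
  exact h5.trans h4

theorem common_finite {𝒮 : SurfA L → Prop} (h𝒮 : BlowUpClosed 𝒮) (n : ℕ) :
    ∀ S : SurfA L, 𝒮 S → ∀ D E : S.prm →₀ ℤ, (∀ ν, 0 ≤ D ν) → (∀ ν, 0 ≤ E ν) →
      (∀ ν, D ν = 0 ∨ E ν = 0) → S.form (S.cl D) (S.cl E) ≤ n →
      {x | x ∈ S.pts ∧ (∃ ν : S.prm, Thr x ν.1 ∧ 0 < D ν) ∧
        ∃ ν : S.prm, Thr x ν.1 ∧ 0 < E ν}.Finite := by
  induction n with
  | zero =>
    intro S hS D E hD hE hDE hle
    convert Set.finite_empty
    rw [Set.eq_empty_iff_forall_notMem]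
    rintro x ⟨hx, h1, h2⟩
    have h3 := S.C3 D E hD hE hDE x hx h1 h2
    push_cast at hle
    omega
  | succ n ih =>
    intro S hS D E hD hE hDE hle
    by_cases hne : ∃ x, x ∈ S.pts ∧ (∃ ν : S.prm, Thr x ν.1 ∧ 0 < D ν) ∧ ∃ ν : S.prm, Thr x ν.1 ∧ 0 < E ν
    · obtain ⟨x, hx, h1, h2⟩ := hne
      obtain ⟨S', hS', ⟨β⟩⟩ := h𝒮 S hS x hx
      obtain ⟨D', hD1, hD2, hD3⟩ := bl_transform β D
      obtain ⟨E', hE1, hE2, hE3⟩ := bl_transform β E
      have hD' : ∀ ν, 0 ≤ D' ν := by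
        intro ν
        rcases bl_cases β ν with h | ⟨μ, h⟩
        · rw [h, hD2]
        · rw [h, hD1]
          exact hD μ
      have hE' : ∀ ν, 0 ≤ E' ν := by
        intro ν
        rcases bl_cases β ν with h | ⟨μ, h⟩
        · rw [h, hE2]
        · rw [h, hE1]
          exact hE μ
      have hDE' : ∀ ν, D' ν = 0 ∨ E' ν = 0 := by
        intro ν
        rcases bl_cases β ν with h | ⟨μ, h⟩
        · rw [h, hD2]
          exact Or.inl rfl
        · rw [h, hD1, hE1]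
          exact hDE μ
      have ha := E2_pos β D hD h1
      have hb := E2_pos β E hE h2
      have hform : S'.form (S'.cl D') (S'.cl E') ≤ n := by
        rw [hD3, hE3, β.form_eq]
        push_cast at hle
        have h3 : (1:ℤ) ≤ (D.sum fun ν m => m * (β.mult ν : ℤ)) * (E.sum fun ν m => m * (β.mult ν : ℤ)) := by
          nlinarith
        have h4 : (-(D.sum fun ν m => m * (β.mult ν : ℤ))) * (-(E.sum fun ν m => m * (β.mult ν : ℤ))) =
          (D.sum fun ν m => m * (β.mult ν : ℤ)) * (E.sum fun ν m => m * (β.mult ν : ℤ)) := by ring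
        show S.form (S.cl D) (S.cl E) - (-(D.sum fun ν m => m * (β.mult ν : ℤ))) *
          (-(E.sum fun ν m => m * (β.mult ν : ℤ))) ≤ n
        rw [h4]
        linarith
      have hfin := ih S' hS' D' E' hD' hE' hDE' hform
      refine (hfin.union (Set.finite_singleton x)).subset ?_
      rintro y ⟨hy, ⟨ν, hν1, hν2⟩, ⟨μ, hμ1, hμ2⟩⟩
      by_cases hyx : y = x
      · right
        exact hyx
      · left
        refine ⟨β.pts_old y hy hyx, ⟨⟨ν.1, bl_old_mem β ν⟩, hν1, ?_⟩, ⟨⟨μ.1, bl_old_mem β μ⟩, hμ1, ?_⟩⟩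
        · rw [hD1]
          exact hν2
        · rw [hE1]
          exact hμ2
    · convert Set.finite_empty
      rw [Set.eq_empty_iff_forall_notMem]
      intro x hx
      exact hne ⟨x, hx⟩

end Pool.Agent.LibKN
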