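import Pool.Agent.LibKN.Defs

/-! Surfaces: Nakai, base point freeness, rational peeling; row E3. -/

set_option autoImplicit false

open Pool.Agent.LibGMM

namespace Pool.Agent.LibKN

open Pool.Agent.LibK

variable {L : Type} [Field L] [Algebra ℂ L]

theorem valSub (ν : DVal L) : ∃ V : ValuationSubring L, ∀ f : L, f ∈ V ↔ 0 ≤ ν.ord f := by
  refine ⟨{ ν.ring.toSubring with
    mem_or_inv_mem' := ?_ }, fun f => Iff.rfl⟩
  intro f
  by_cases hf : f = 0
  · left
    rw [hf]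
    exact ν.ring.zero_mem
  have h1 : ν.ord (f * f⁻¹) = ν.ord f + ν.ord f⁻¹ := ν.ord_mul f f⁻¹ hf (inv_ne_zero hf)
  rw [mul_inv_cancel₀ hf] at h1
  have h2 : ν.ord (1 : L) = 0 := by
    have := ν.ord_const 1
    rwa [map_one] at this
  rw [h2] at h1
  by_cases h3 : 0 ≤ ν.ord f
  · left
    exact h3
  · right
    have h4 : 0 ≤ ν.ord f⁻¹ := by omega
    exact h4

theorem exists_pt_on (S : SurfA L) (ν : S.prm) : ∃ x ∈ S.pts, Thr x ν.1 := by
  obtain ⟨V, hV⟩ := valSub ν.1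
  obtain ⟨x, hx, h⟩ := S.centre V (fun c => by
    rw [hV, ν.1.ord_const])
  refine ⟨x, hx, fun f hf => ?_⟩
  exact (hV f).1 (h f hf)

end Pool.Agent.LibKN
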