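import Pool.Agent.LibKN.Defs

/-! Surfaces: Nakai, base point freeness, rational peeling; row E4. -/

set_option autoImplicit false

open Pool.Agent.LibGMM

namespace Pool.Agent.LibKN

open Pool.Agent.LibK

variable {L : Type} [Field L] [Algebra ℂ L]

theorem exists_sec_avoid (S : SurfA L) (D : S.prm →₀ ℤ) (T : Finset S.prm)
    (hT : ∀ ν ∈ T, ∃ f ∈ secD S.prm D, f ≠ 0 ∧ ν.1.ord f + D ν = 0)
    (hne : ∃ f ∈ secD S.prm D, f ≠ 0) :
    ∃ f ∈ secD S.prm D, f ≠ 0 ∧ ∀ ν ∈ T, ν.1.ord f + D ν = 0 := by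
  classical
  set V := secD S.prm D with hV
  set W : S.prm → Submodule ℂ V := fun ν =>
    (secD S.prm (D - Finsupp.single ν 1)).comap V.subtype with hW
  have htop : (⊤ : Submodule ℂ V) ∉ insert (⊥ : Submodule ℂ V) (T.image W) := by
    intro h
    rw [Finset.mem_insert, Finset.mem_image] at h
    rcases h with h | ⟨ν, hν, h⟩
    · obtain ⟨f, hf, hf0⟩ := hne
      have h1 : (⟨f, hf⟩ : V) ∈ (⊥ : Submodule ℂ V) := by rw [← h]; trivial
      rw [Submodule.mem_bot] at h1
      exact hf0 (congrArg (fun z : V => (z : L)) h1)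
    · obtain ⟨f, hf, hf0, hfν⟩ := hT ν hν
      have h1 : (⟨f, hf⟩ : V) ∈ W ν := by rw [h]; trivial
      have h2 : f ∈ secD S.prm (D - Finsupp.single ν 1) := h1
      have h3 := h2 ν hf0
      rw [Finsupp.sub_apply, Finsupp.single_eq_same] at h3
      omega
  have hun := Subspace.biUnion_ne_univ_of_top_notMem htop
  rw [Set.ne_univ_iff_exists_notMem] at hun
  obtain ⟨⟨f, hf⟩, hfn⟩ := hun
  rw [Set.mem_iUnion₂] at hfn
  push Not at hfn
  have hf0 : f ≠ 0 := by
    intro h
    apply hfn ⊥ (Finset.mem_insert_self _ _)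
    subst h
    exact Submodule.zero_mem _
  refine ⟨f, hf, hf0, fun ν hν => ?_⟩
  have h1 := hfn (W ν) (Finset.mem_insert_of_mem (Finset.mem_image_of_mem W hν))
  have h2 := hf ν hf0
  by_contra h3
  apply h1
  show f ∈ secD S.prm (D - Finsupp.single ν 1)
  intro μ _
  have h4 := hf μ hf0
  rw [Finsupp.sub_apply]
  by_cases h5 : μ = ν
  · subst h5
    rw [Finsupp.single_eq_same]
    omega
  · rw [Finsupp.single_eq_of_ne h5]
    omega

end Pool.Agent.LibKN
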