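import Pool.Agent.LibKN.Defs
import Pool.Agent.LibKN.B2
import Pool.Agent.LibKN.B4
import Pool.Agent.LibKN.D2
import Pool.Agent.LibKN.E3
import Pool.Agent.LibKN.E4

/-! Surfaces: Nakai, base point freeness, rational peeling; row E5. -/

set_option autoImplicit false

open Pool.Agent.LibGMM

namespace Pool.Agent.LibKN

open Pool.Agent.LibK

variable {L : Type} [Field L] [Algebra ℂ L]

theorem e5_ord_pow (ν : DVal L) {f : L} (hf : f ≠ 0) (n : ℕ) : ν.ord (f ^ n) = n * ν.ord f := by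
  induction n with
  | zero =>
    have h1 := ν.ord_const 1
    rw [map_one] at h1
    simp [h1]
  | succ n ih =>
    rw [pow_succ, ν.ord_mul _ _ (pow_ne_zero n hf) hf, ih]
    push_cast
    ring

theorem e5_pow {P : Set (DVal L)} (D : P →₀ ℤ) (ν : P) {f : L} (hf : f ≠ 0) (n m : ℕ) :
    ν.1.ord (f ^ n) + ((m * n) • D) ν = n * (ν.1.ord f + (m • D) ν) := by
  rw [e5_ord_pow ν.1 hf]
  simp only [Finsupp.smul_apply, nsmul_eq_mul]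
  push_cast
  ring

theorem e5_mem {P : Set (DVal L)} (D : P →₀ ℤ) {f : L} (hf : f ≠ 0) (n m : ℕ)
    (h : f ∈ secD P (m • D)) : f ^ n ∈ secD P ((m * n) • D) := by
  intro ν _
  rw [e5_pow D ν hf]
  exact mul_nonneg (Int.natCast_nonneg n) (h ν hf)

theorem nakai_two {𝒮 : SurfA L → Prop} (h𝒮 : BlowUpClosed 𝒮) {S : SurfA L} (hS : 𝒮 S)
    {D : S.prm →₀ ℤ} (hH : ∀ ν : S.prm, 1 ≤ S.form (S.cl D) (cc S ν))
    (hHH : 0 < S.form (S.cl D) (S.cl D)) : ∃ N : ℕ, 1 ≤ N ∧ ∃ f g : L,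
      f ∈ secD S.prm (N • D) ∧ g ∈ secD S.prm (N • D) ∧ f ≠ 0 ∧ g ≠ 0 ∧
      ∀ ν : S.prm, ν.1.ord f + (N • D) ν = 0 ∨ ν.1.ord g + (N • D) ν = 0 := by
  classical
  have hnef : Nef S (S.cl D) := fun ν => le_trans zero_le_one (hH ν)
  obtain ⟨k0, hk0⟩ := exists_large S hnef hHH 0
  obtain ⟨n1, hn1⟩ : ∃ n1, n1 = max k0 1 := ⟨_, rfl⟩
  have hn1' : 1 ≤ n1 := by omega
  have hpos := (hk0 n1 (by omega)).2
  obtain ⟨G, hG, hGcl⟩ := (h0_pos_iff S _).1 hpos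
  have hGcl' : S.cl G = S.cl (n1 • D) := by rw [hGcl, add_zero, map_nsmul]
  obtain ⟨f1, hf1, hf10, hf1G⟩ := exists_sec S hG hGcl'
  have hgen : ∀ ν : S.prm, ∃ a : ℕ, 1 ≤ a ∧ ∃ g : L, g ∈ secD S.prm (a • D) ∧ g ≠ 0 ∧
      ν.1.ord g + (a • D) ν = 0 := by
    intro ν
    obtain ⟨x, hx, hxν⟩ := exists_pt_on S ν
    obtain ⟨a, ha, g, hg1, hg2, hg3⟩ := nakai_point h𝒮 hS hx hH hHH
    exact ⟨a, ha, g, hg1, hg2, hg3 ν hxν⟩
  choose a ha g hg1 hg2 hg3 using hgen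
  obtain ⟨M, hM⟩ : ∃ M, M = ∏ ν ∈ G.support, a ν := ⟨_, rfl⟩
  have hM1 : 1 ≤ M := by
    rw [hM]
    exact Nat.one_le_iff_ne_zero.2 (Finset.prod_ne_zero_iff.2 fun ν _ => by have := ha ν; omega)
  have hf : f1 ^ M ∈ secD S.prm ((n1 * M) • D) := e5_mem D hf10 M n1 hf1
  obtain ⟨g', hg', hg'0, hg'T⟩ := exists_sec_avoid S ((n1 * M) • D) G.support (by
    intro ν hν
    have hdvd : a ν ∣ n1 * M := by
      rw [hM]
      exact Dvd.dvd.mul_left (Finset.dvd_prod_of_mem a hν) n1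
    obtain ⟨c, hc⟩ := hdvd
    refine ⟨g ν ^ c, ?_, pow_ne_zero c (hg2 ν), ?_⟩
    · rw [hc]
      exact e5_mem D (hg2 ν) c (a ν) (hg1 ν)
    · rw [hc, e5_pow D ν (hg2 ν), hg3 ν, mul_zero]) ⟨f1 ^ M, hf, pow_ne_zero M hf10⟩
  refine ⟨n1 * M, Nat.one_le_iff_ne_zero.2 (Nat.mul_ne_zero (by omega) (by omega)), f1 ^ M, g', hf, hg',
    pow_ne_zero M hf10, hg'0, fun ν => ?_⟩
  by_cases hν : ν ∈ G.support
  · exact Or.inr (hg'T ν hν)
  · left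
    rw [e5_pow D ν hf10, ← hf1G ν, Finsupp.notMem_support_iff.1 hν, mul_zero]

end Pool.Agent.LibKN
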