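import Pool.Agent.LibKN.Defs
import Pool.Agent.LibKN.B2
import Pool.Agent.LibKN.C3
import Pool.Agent.LibKN.D2
import Pool.Agent.LibKN.E2
import Pool.Agent.LibKN.E5

/-! Surfaces: Nakai, base point freeness, rational peeling; row E6. -/

set_option autoImplicit false

open Pool.Agent.LibGMM

namespace Pool.Agent.LibKN

open Pool.Agent.LibK

variable {L : Type} [Field L] [Algebra ℂ L]

theorem nakai_bpf {𝒮 : SurfA L → Prop} (h𝒮 : BlowUpClosed 𝒮) {S : SurfA L} (hS : 𝒮 S)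
    {D : S.prm →₀ ℤ} (hH : ∀ ν : S.prm, 1 ≤ S.form (S.cl D) (cc S ν))
    (hHH : 0 < S.form (S.cl D) (S.cl D)) : ∃ n : ℕ, 1 ≤ n ∧ Bpf S (n • D) ∧
      s2 S (n • S.cl D) = 0 := by
  classical
  obtain ⟨N, hN, f, g, hf, hg, hf0, hg0, hfg⟩ := nakai_two h𝒮 hS hH hHH
  obtain ⟨G1, hG1, hG1p, -⟩ := exists_div S hf hf0
  obtain ⟨G2, hG2, hG2p, -⟩ := exists_div S hg hg0
  have hdis : ∀ ν, G1 ν = 0 ∨ G2 ν = 0 := by
    intro ν
    rw [hG1, hG2]
    exact hfg ν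
  have hZ := common_finite h𝒮 (S.form (S.cl G1) (S.cl G2)).toNat S hS G1 G2 hG1p hG2p hdis
    (Int.self_le_toNat _)
  have hpt : ∀ x : Subalgebra ℂ L, ∃ a : ℕ, 1 ≤ a ∧ (x ∈ S.pts → ∃ f, GenAt S.prm x (a • D) f) := by
    intro x
    by_cases hx : x ∈ S.pts
    · obtain ⟨a, ha, f, hf⟩ := nakai_point h𝒮 hS hx hH hHH
      exact ⟨a, ha, fun _ => ⟨f, hf⟩⟩
    · exact ⟨1, le_rfl, fun h => absurd h hx⟩
  choose a ha1 ha2 using hpt
  set c : ℕ := ∏ z ∈ hZ.toFinset, a z with hc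
  have hc1 : 1 ≤ c := by
    rw [hc]
    have h0 : 0 < ∏ z ∈ hZ.toFinset, a z := Finset.prod_pos (fun z _ => Nat.lt_of_lt_of_le Nat.zero_lt_one (ha1 z))
    omega
  have hgen : ∀ x ∈ S.pts, ∃ f, GenAt S.prm x ((N * c) • D) f := by
    intro x hx
    by_cases hxZ : x ∈ hZ.toFinset
    · obtain ⟨b, hb⟩ := Finset.dvd_prod_of_mem a hxZ
      obtain ⟨f1, hf1⟩ := ha2 x hx
      have h1 := genAt_pow hf1 (N * b)
      rw [smul_smul] at h1
      refine ⟨f1 ^ (N * b), ?_⟩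
      have h2 : N * b * a x = N * c := by
        rw [hc, hb]
        ring
      rw [h2] at h1
      exact h1
    · have h3 : ¬ ((∃ ν : S.prm, Thr x ν.1 ∧ 0 < G1 ν) ∧ ∃ ν : S.prm, Thr x ν.1 ∧ 0 < G2 ν) := by
        intro h
        exact hxZ (hZ.mem_toFinset.2 ⟨hx, h⟩)
      have h4 : ∃ f, GenAt S.prm x (N • D) f := by
        by_cases h5 : ∃ ν : S.prm, Thr x ν.1 ∧ 0 < G1 ν
        · refine ⟨g, hg, hg0, ?_⟩
          intro ν hν
          have h6 : ¬ 0 < G2 ν := fun h => h3 ⟨h5, ν, hν, h⟩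
          have h7 := hG2p ν
          have h8 : G2 ν = 0 := by omega
          rw [← hG2, h8]
        · refine ⟨f, hf, hf0, ?_⟩
          intro ν hν
          have h6 : ¬ 0 < G1 ν := fun h => h5 ⟨ν, hν, h⟩
          have h7 := hG1p ν
          have h8 : G1 ν = 0 := by omega
          rw [← hG1, h8]
      obtain ⟨f1, hf1⟩ := h4
      have h5 := genAt_pow hf1 c
      rw [smul_smul, mul_comm c N] at h5
      exact ⟨_, h5⟩
  obtain ⟨m1, hm1⟩ := nakai_vanish S hH hHH 0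
  refine ⟨N * c * (m1 + 1), ?_, ?_, ?_⟩
  · exact Nat.mul_pos (Nat.mul_pos hN hc1) (Nat.succ_pos _)
  · intro x hx
    obtain ⟨f1, hf1⟩ := hgen x hx
    have h5 := genAt_pow hf1 (m1 + 1)
    rw [smul_smul, mul_comm (m1 + 1)] at h5
    exact ⟨_, h5⟩
  · have h6 : m1 ≤ N * c * (m1 + 1) := by
      have h7 : 1 ≤ N * c := Nat.mul_pos hN hc1
      nlinarith
    have h8 := hm1 _ h6
    rw [add_zero] at h8
    exact h8

end Pool.Agent.LibKN
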