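import Pool.Agent.LibKN.Defs

/-! Surfaces: Nakai, base point freeness, rational peeling; row P1. -/

set_option autoImplicit false

open Pool.Agent.LibGMM

namespace Pool.Agent.LibKN

open Pool.Agent.LibK

variable {L : Type} [Field L] [Algebra ℂ L]

theorem hodge2 (S : SurfA L) {P D : S.Λ} (hPP : 0 < S.form P P) (hPD : S.form P D = 0)
    (hD : D ≠ 0) : S.form D D < 0 := by
  by_contra hDD
  rw [not_lt] at hDD
  obtain ⟨α, hα⟩ : ∃ α, α = S.form S.A P := ⟨_, rfl⟩
  obtain ⟨β, hβ⟩ : ∃ β, β = S.form S.A D := ⟨_, rfl⟩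
  have h1 : S.form S.A (α • D - β • P) = 0 := by
    rw [map_sub, map_smul, map_smul, smul_eq_mul, smul_eq_mul, ← hα, ← hβ]
    ring
  have h2 : S.form (α • D - β • P) (α • D - β • P) = α ^ 2 * S.form D D + β ^ 2 * S.form P P := by
    simp only [map_sub, map_smul, LinearMap.sub_apply, LinearMap.smul_apply, smul_eq_mul]
    rw [S.symm D P, hPD]
    ring
  have h3 : α • D - β • P = 0 := by
    by_contra hne
    have h4 := S.hodge _ h1 hne
    rw [h2] at h4
    have h5 : 0 ≤ α ^ 2 * S.form D D := mul_nonneg (sq_nonneg _) hDD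
    have h6 : 0 ≤ β ^ 2 * S.form P P := mul_nonneg (sq_nonneg _) hPP.le
    linarith
  have h4 : S.form P (α • D - β • P) = 0 := by rw [h3, map_zero]
  rw [map_sub, map_smul, map_smul, smul_eq_mul, smul_eq_mul, hPD, mul_zero, zero_sub, neg_eq_zero] at h4
  have h5 : β = 0 := by
    rcases mul_eq_zero.1 h4 with h | h
    · exact h
    · exact absurd h hPP.ne'
  rw [hβ] at h5
  exact absurd (S.hodge D h5 hD) (not_lt.2 hDD)

end Pool.Agent.LibKN
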