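import Pool.Agent.LibKN.Defs
import Pool.Agent.LibKN.B1
import Pool.Agent.LibKN.P1

/-! Surfaces: Nakai, base point freeness, rational peeling; row P2. -/

set_option autoImplicit false

open Pool.Agent.LibGMM

namespace Pool.Agent.LibKN

open Pool.Agent.LibK

variable {L : Type} [Field L] [Algebra ℂ L]

/-- the positive part -/
noncomputable def P2_pp (S : SurfA L) (T : S.prm →₀ ℤ) : S.prm →₀ ℤ :=
  T.mapRange (fun z => max z 0) (max_self 0)

theorem P2_pp_apply (S : SurfA L) (T : S.prm →₀ ℤ) (ν : S.prm) : P2_pp S T ν = max (T ν) 0 :=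
  Finsupp.mapRange_apply ..

theorem P2_pp_nonneg (S : SurfA L) (T : S.prm →₀ ℤ) (ν : S.prm) : 0 ≤ P2_pp S T ν := by
  rw [P2_pp_apply]
  exact le_max_right _ _

theorem P2_decomp (S : SurfA L) (T : S.prm →₀ ℤ) : T = P2_pp S T - P2_pp S (-T) := by
  ext ν
  rw [Finsupp.sub_apply, P2_pp_apply, P2_pp_apply, Finsupp.neg_apply]
  omega

theorem P2_supp (S : SurfA L) {T : S.prm →₀ ℤ} {ν : S.prm} (h : P2_pp S T ν ≠ 0) : T ν ≠ 0 := by
  rw [P2_pp_apply] at h
  omega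

theorem P2_disj (S : SurfA L) (T : S.prm →₀ ℤ) (ν : S.prm) (h : P2_pp S (-T) ν ≠ 0) :
    P2_pp S T ν = 0 := by
  rw [P2_pp_apply, Finsupp.neg_apply] at h
  rw [P2_pp_apply]
  omega

theorem P2_prod (S : SurfA L) {D E : S.prm →₀ ℤ} (hD : ∀ ν, 0 ≤ D ν) (hE : ∀ ν, 0 ≤ E ν)
    (h : ∀ ν, E ν ≠ 0 → D ν = 0) : 0 ≤ S.form (S.cl D) (S.cl E) := by
  rw [form_cl]
  refine Finset.sum_nonneg fun ν hν => ?_
  exact mul_nonneg (hE ν) (form_cc_nonneg S hD ν (h ν (Finsupp.mem_support_iff.1 hν)))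

theorem P2_form_P (S : SurfA L) {P : S.Λ} {T : S.prm →₀ ℤ} (hT : ∀ ν, T ν ≠ 0 → ν ∈ perp S P) :
    S.form P (S.cl T) = 0 := by
  rw [form_cl]
  refine Finset.sum_eq_zero fun ν hν => ?_
  have h1 : S.form P (cc S ν) = 0 := hT ν (Finsupp.mem_support_iff.1 hν)
  beta_reduce
  rw [h1, mul_zero]

theorem P2_zero_of_cl (S : SurfA L) {D : S.prm →₀ ℤ} (hD : ∀ ν, 0 ≤ D ν) (h : S.cl D = 0) :
    D = 0 := by
  by_contra h0
  have h1 := form_A_pos S hD h0
  rw [h, map_zero] at h1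
  norm_num at h1

theorem P2_cl_ne (S : SurfA L) {P : S.Λ} (hPP : 0 < S.form P P) {T : S.prm →₀ ℤ}
    (hT : ∀ ν, T ν ≠ 0 → ν ∈ perp S P) (h0 : T ≠ 0) : S.cl T ≠ 0 := by
  intro hcl
  have hdec := P2_decomp S T
  set D := P2_pp S T with hDdef
  set E := P2_pp S (-T) with hEdef
  have h1 : S.cl D = S.cl E := by
    rw [hdec, map_sub] at hcl
    exact sub_eq_zero.1 hcl
  have h2 : 0 ≤ S.form (S.cl D) (S.cl E) :=
    P2_prod S (P2_pp_nonneg S T) (P2_pp_nonneg S (-T)) (P2_disj S T)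
  have h3 : S.form P (S.cl D) = 0 := P2_form_P S fun ν hν => hT ν (P2_supp S hν)
  have h4 : S.cl D = 0 := by
    by_contra h5
    have h6 := hodge2 S hPP h3 h5
    rw [← h1] at h2
    omega
  have h5 : D = 0 := P2_zero_of_cl S (P2_pp_nonneg S T) h4
  have h6 : E = 0 := P2_zero_of_cl S (P2_pp_nonneg S (-T)) (h1 ▸ h4)
  apply h0
  rw [hdec, h5, h6, sub_zero]

theorem cl_inj_perp (S : SurfA L) {P : S.Λ} (hPP : 0 < S.form P P) {T : S.prm →₀ ℤ}
    (hT : ∀ ν, T ν ≠ 0 → ν ∈ perp S P) (h0 : T ≠ 0) : S.form (S.cl T) (S.cl T) < 0 :=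
  hodge2 S hPP (P2_form_P S hT) (P2_cl_ne S hPP hT h0)

theorem perp_finite (S : SurfA L) {P : S.Λ} (hPP : 0 < S.form P P) : (perp S P).Finite := by
  classical
  have hli : LinearIndependent ℤ (fun ν : perp S P => cc S ν.1) := by
    rw [linearIndependent_iff]
    intro l hl
    by_contra hne
    have h1 : l.mapDomain Subtype.val ≠ 0 := by
      intro h2
      apply hne
      apply Finsupp.mapDomain_injective Subtype.val_injective
      rw [h2, Finsupp.mapDomain_zero]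
    have h3 : ∀ ν, (l.mapDomain Subtype.val) ν ≠ 0 → ν ∈ perp S P := by
      intro ν hν
      have h4 : ν ∈ (l.mapDomain Subtype.val).support := Finsupp.mem_support_iff.2 hν
      have h5 := Finsupp.mapDomain_support h4
      rw [Finset.mem_image] at h5
      obtain ⟨μ, -, rfl⟩ := h5
      exact μ.2
    apply P2_cl_ne S hPP h3 h1
    rw [cl_eq_sum]
    refine (Finsupp.sum_mapDomain_index (h := fun ν m => m • cc S ν) (fun _ => zero_smul ℤ _)
      (fun _ _ _ => add_smul _ _ _)).trans ?_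
    rw [Finsupp.linearCombination_apply] at hl
    exact hl
  exact Set.finite_coe_iff.1 hli.finite

theorem sign_perp (S : SurfA L) {P : S.Λ} (hPP : 0 < S.form P P) {T : S.prm →₀ ℤ}
    (hT : ∀ ν, T ν ≠ 0 → ν ∈ perp S P) (h : ∀ ν ∈ perp S P, 0 ≤ S.form (S.cl T) (cc S ν)) (ν : S.prm) :
    T ν ≤ 0 := by
  have hdec := P2_decomp S T
  set D := P2_pp S T with hDdef
  set E := P2_pp S (-T) with hEdef
  have h2 : 0 ≤ S.form (S.cl D) (S.cl E) :=
    P2_prod S (P2_pp_nonneg S T) (P2_pp_nonneg S (-T)) (P2_disj S T)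
  have h3 : 0 ≤ S.form (S.cl T) (S.cl D) := by
    rw [form_cl]
    refine Finset.sum_nonneg fun μ hμ => ?_
    exact mul_nonneg (P2_pp_nonneg S T μ) (h μ (hT μ (P2_supp S (Finsupp.mem_support_iff.1 hμ))))
  have h4 : S.form (S.cl T) (S.cl D) = S.form (S.cl D) (S.cl D) - S.form (S.cl D) (S.cl E) := by
    rw [S.symm (S.cl D) (S.cl E)]
    conv_lhs => rw [hdec]
    rw [map_sub, map_sub, LinearMap.sub_apply]
  have h5 : D = 0 := by
    by_contra h6
    have h7 := cl_inj_perp S hPP (T := D) (fun μ hμ => hT μ (P2_supp S hμ)) h6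
    omega
  have h6 : D ν = 0 := by rw [h5, Finsupp.zero_apply]
  rw [hDdef, P2_pp_apply] at h6
  omega

end Pool.Agent.LibKN
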