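import Pool.Agent.LibKN.Defs
import Pool.Agent.LibKN.B1
import Pool.Agent.LibKN.B2
import Pool.Agent.LibKN.P2

/-! Surfaces: Nakai, base point freeness, rational peeling; row P3. -/

set_option autoImplicit false

open Pool.Agent.LibGMM

namespace Pool.Agent.LibKN

open Pool.Agent.LibK

variable {L : Type} [Field L] [Algebra ℂ L]

theorem h0_K_add (S : SurfA L) {P : S.Λ} (hP : Nef S P) (hPP : 0 < S.form P P) {N : ℕ}
    (hN : 1 ≤ N) {b : S.prm →₀ ℤ} (hb1 : ∀ ν, b ν < N) (hb2 : ∀ ν, ν ∉ perp S P → 0 ≤ b ν)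
    (hb3 : ∀ ν ∈ perp S P, S.form (N • S.K + S.cl b) (cc S ν) = 0) {Z : S.prm →₀ ℤ}
    (hZ : ∀ ν, 0 ≤ Z ν) (hZP : ∀ ν, Z ν ≠ 0 → ν ∈ perp S P) : S.h0 (S.K + S.cl Z) = 0 := by
  classical
  by_contra hne
  obtain ⟨G, hG, hGc⟩ := (h0_pos_iff S _).1 (Nat.pos_of_ne_zero hne)
  set b1 := b.filter (· ∈ perp S P) with hb1d
  set b0 := b.filter (¬ · ∈ perp S P) with hb0d
  set G1 := G.filter (· ∈ perp S P) with hG1d
  set G0 := G.filter (¬ · ∈ perp S P) with hG0d
  have hbs : b1 + b0 = b := Finsupp.filter_add_filter_not b _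
  have hGs : G1 + G0 = G := Finsupp.filter_add_filter_not G _
  have hin : ∀ (D : S.prm →₀ ℤ) (ν : S.prm), ν ∈ perp S P →
      (D.filter (· ∈ perp S P)) ν = D ν ∧ (D.filter (¬ · ∈ perp S P)) ν = 0 := by
    intro D ν hν
    exact ⟨Finsupp.filter_apply_pos _ _ hν, Finsupp.filter_apply_neg _ _ (not_not.2 hν)⟩
  have hout : ∀ (D : S.prm →₀ ℤ) (ν : S.prm), ν ∉ perp S P →
      (D.filter (· ∈ perp S P)) ν = 0 ∧ (D.filter (¬ · ∈ perp S P)) ν = D ν := by
    intro D ν hν
    exact ⟨Finsupp.filter_apply_neg _ _ hν, Finsupp.filter_apply_pos _ _ hν⟩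
  have hb0n : ∀ ν, 0 ≤ b0 ν := by
    intro ν
    by_cases hν : ν ∈ perp S P
    · rw [(hin b ν hν).2]
    · rw [(hout b ν hν).2]
      exact hb2 ν hν
  have hG0n : ∀ ν, 0 ≤ G0 ν := by
    intro ν
    by_cases hν : ν ∈ perp S P
    · rw [(hin G ν hν).2]
    · rw [(hout G ν hν).2]
      exact hG ν
  set T : S.prm →₀ ℤ := N • Z - b1 - N • G1 with hTd
  have hTa : ∀ ν, T ν = N * Z ν - b1 ν - N * G1 ν := by
    intro ν
    rw [hTd, Finsupp.sub_apply, Finsupp.sub_apply, Finsupp.smul_apply, Finsupp.smul_apply,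
      nsmul_eq_mul, nsmul_eq_mul]
  have hTs : ∀ ν, T ν ≠ 0 → ν ∈ perp S P := by
    intro ν hν
    by_contra h1
    apply hν
    have h2 : Z ν = 0 := by
      by_contra h3
      exact h1 (hZP ν h3)
    rw [hTa, h2, (hout b ν h1).1, (hout G ν h1).1]
    ring
  have hTp : ∀ ν ∈ perp S P, 0 ≤ S.form (S.cl T) (cc S ν) := by
    intro ν hν
    have h1 := hb3 ν hν
    have h2 := form_cc_nonneg S hb0n ν (hin b ν hν).2
    have h3 := form_cc_nonneg S hG0n ν (hin G ν hν).2
    have h4 : S.cl b = S.cl b1 + S.cl b0 := by rw [← map_add, hbs]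
    have h5 : S.cl G1 + S.cl G0 = S.K + S.cl Z := by rw [← map_add, hGs, hGc]
    have h6 : S.form (S.cl G1) (cc S ν) + S.form (S.cl G0) (cc S ν) =
        S.form S.K (cc S ν) + S.form (S.cl Z) (cc S ν) := by
      have h7 := congrArg (fun c => S.form c (cc S ν)) h5
      simpa only [map_add, LinearMap.add_apply] using h7
    have h7 : (N : ℤ) * S.form S.K (cc S ν) + (S.form (S.cl b1) (cc S ν) +
        S.form (S.cl b0) (cc S ν)) = 0 := by
      rw [h4] at h1
      simpa only [map_add, map_nsmul, LinearMap.add_apply, LinearMap.smul_apply,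
        nsmul_eq_mul] using h1
    have h8 : S.form (S.cl T) (cc S ν) = N * S.form (S.cl Z) (cc S ν) -
        S.form (S.cl b1) (cc S ν) - N * S.form (S.cl G1) (cc S ν) := by
      rw [hTd]
      simp only [map_sub, map_nsmul, LinearMap.sub_apply, LinearMap.smul_apply, nsmul_eq_mul]
    rw [h8]
    have h9 : (N : ℤ) * S.form (S.cl G1) (cc S ν) = N * S.form S.K (cc S ν) +
        N * S.form (S.cl Z) (cc S ν) - N * S.form (S.cl G0) (cc S ν) := by
      have : S.form (S.cl G1) (cc S ν) = S.form S.K (cc S ν) + S.form (S.cl Z) (cc S ν) -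
        S.form (S.cl G0) (cc S ν) := by linarith
      rw [this]
      ring
    have h10 : 0 ≤ (N : ℤ) * S.form (S.cl G0) (cc S ν) := mul_nonneg (Int.natCast_nonneg N) h3
    linarith
  have hle := sign_perp S hPP hTs hTp
  have hZG : ∀ ν, Z ν ≤ G ν := by
    intro ν
    by_cases hν : ν ∈ perp S P
    · have h1 := hle ν
      rw [hTa, (hin b ν hν).1, (hin G ν hν).1] at h1
      have h2 := hb1 ν
      have hN' : (1 : ℤ) ≤ N := by exact_mod_cast hN
      by_contra h3
      push Not at h3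
      have h4 : (N : ℤ) * (G ν + 1) ≤ N * Z ν := mul_le_mul_of_nonneg_left h3 (by omega)
      nlinarith
    · have h2 : Z ν = 0 := by
        by_contra h3
        exact hν (hZP ν h3)
      rw [h2]
      exact hG ν
  have hK : 0 < S.h0 S.K := by
    refine (h0_pos_iff S _).2 ⟨G - Z, fun ν => ?_, ?_⟩
    · rw [Finsupp.sub_apply]
      exact sub_nonneg.2 (hZG ν)
    · rw [map_sub, hGc, add_sub_cancel_right]
  rw [S.h0_K] at hK
  exact lt_irrefl _ hK

end Pool.Agent.LibKN
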