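import Pool.Agent.LibKN.Defs
import Pool.Agent.LibKN.B1
import Pool.Agent.LibKN.B3
import Pool.Agent.LibKN.P3

/-! Surfaces: Nakai, base point freeness, rational peeling; row P4. -/

set_option autoImplicit false

open Pool.Agent.LibGMM

namespace Pool.Agent.LibKN

open Pool.Agent.LibK

variable {L : Type} [Field L] [Algebra ℂ L]

theorem pa_perp (S : SurfA L) {P : S.Λ} (hP : Nef S P) (hPP : 0 < S.form P P) {N : ℕ}
    (hN : 1 ≤ N) {b : S.prm →₀ ℤ} (hb1 : ∀ ν, b ν < N) (hb2 : ∀ ν, ν ∉ perp S P → 0 ≤ b ν)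
    (hb3 : ∀ ν ∈ perp S P, S.form (N • S.K + S.cl b) (cc S ν) = 0) {Z : S.prm →₀ ℤ}
    (hZ : ∀ ν, 0 ≤ Z ν) (hZP : ∀ ν, Z ν ≠ 0 → ν ∈ perp S P) (h0 : Z ≠ 0) :
    2 + S.form (S.cl Z) (S.cl Z) + S.form S.K (S.cl Z) ≤ 0 ∧
      ∃ ν, 0 < Z ν ∧ S.form (S.cl Z + S.K) (cc S ν) < 0 := by
  have h1 := h0_neg_eff S hZ h0
  have h2 := h0_K_add S hP hPP hN hb1 hb2 hb3 hZ hZP
  have h3 := S.rr (-S.cl Z)
  rw [sub_neg_eq_add, h1, h2] at h3
  have e1 : S.form (-S.cl Z) (-S.cl Z - S.K) =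
      S.form (S.cl Z) (S.cl Z) + S.form S.K (S.cl Z) := by
    simp only [map_sub, map_neg, LinearMap.neg_apply]
    rw [S.symm (S.cl Z) S.K]
    ring
  rw [e1] at h3
  have h4 : 2 + S.form (S.cl Z) (S.cl Z) + S.form S.K (S.cl Z) ≤ 0 := by
    push_cast at h3
    linarith
  refine ⟨h4, ?_⟩
  have h5 := form_cl S (S.cl Z + S.K) Z
  by_contra hcon
  push Not at hcon
  have h6 : 0 ≤ Z.sum fun ν m => m * S.form (S.cl Z + S.K) (cc S ν) := by
    apply Finset.sum_nonneg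
    intro ν hν
    have h7 : Z ν ≠ 0 := Finsupp.mem_support_iff.1 hν
    have h8 := hZ ν
    exact mul_nonneg h8 (hcon ν (lt_of_le_of_ne h8 (Ne.symm h7)))
  rw [← h5] at h6
  simp only [map_add, LinearMap.add_apply] at h6
  linarith

theorem pa_perp_curve (S : SurfA L) {P : S.Λ} (hP : Nef S P) (hPP : 0 < S.form P P) {N : ℕ}
    (hN : 1 ≤ N) {b : S.prm →₀ ℤ} (hb1 : ∀ ν, b ν < N) (hb2 : ∀ ν, ν ∉ perp S P → 0 ≤ b ν)
    (hb3 : ∀ ν ∈ perp S P, S.form (N • S.K + S.cl b) (cc S ν) = 0) {ν : S.prm}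
    (hν : ν ∈ perp S P) : 2 + S.form (cc S ν) (cc S ν) + S.form S.K (cc S ν) = 0 := by
  have h1 := pa_perp S hP hPP hN hb1 hb2 hb3 (Z := Finsupp.single ν 1)
    (fun μ => by
      classical
      rw [Finsupp.single_apply]
      split_ifs <;> norm_num)
    (fun μ hμ => by
      classical
      rw [Finsupp.single_apply] at hμ
      have h2 : ν = μ := by
        by_contra h3
        rw [if_neg h3] at hμ
        exact hμ rfl
      rw [← h2]
      exact hν)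
    (by
      rw [Ne, Finsupp.single_eq_zero]
      norm_num)
  have h2 := S.pa_nonneg ν
  exact le_antisymm h1.1 h2

end Pool.Agent.LibKN
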