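import Pool.Agent.LibKN.Defs
import Pool.Agent.LibKN.B1
import Pool.Agent.LibKN.B2
import Pool.Agent.LibKN.B4

/-! Surfaces: Nakai, base point freeness, rational peeling; row P5. -/

set_option autoImplicit false

open Pool.Agent.LibGMM

namespace Pool.Agent.LibKN

open Pool.Agent.LibK

variable {L : Type} [Field L] [Algebra ℂ L]

theorem exists_Z1 (S : SurfA L) {P : S.Λ} (hP : Nef S P) (hPP : 0 < S.form P P) :
    ∃ (Z : S.prm →₀ ℤ) (k1 : ℕ), 1 ≤ k1 ∧ (∀ ν, 0 ≤ Z ν) ∧ (∀ ν, Z ν ≠ 0 → ν ∈ perp S P) ∧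
      (∀ ν ∈ perp S P, 0 < Z ν) ∧ (∀ ν : S.prm, 1 ≤ S.form (k1 • P - S.cl Z) (cc S ν)) ∧
      0 < S.form (k1 • P - S.cl Z) (k1 • P - S.cl Z) := by
  classical
  obtain ⟨k, hk⟩ := exists_large S hP hPP (-S.A)
  obtain ⟨G, hG, hGc⟩ := (h0_pos_iff S _).1 (hk k le_rfl).2
  set Z : S.prm →₀ ℤ := G.filter (fun ν => ν ∈ perp S P) with hZ
  set G0 : S.prm →₀ ℤ := G.filter (fun ν => ¬ ν ∈ perp S P) with hG0
  have hsum : Z + G0 = G := Finsupp.filter_pos_add_filter_neg G _
  have hZν : ∀ ν, Z ν = if ν ∈ perp S P then G ν else 0 := fun ν => Finsupp.filter_apply _ _ _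
  have hG0ν : ∀ ν, G0 ν = if ¬ ν ∈ perp S P then G ν else 0 := fun ν => Finsupp.filter_apply _ _ _
  have hZ0 : ∀ ν, 0 ≤ Z ν := by
    intro ν
    rw [hZν]
    split_ifs
    · exact hG ν
    · exact le_rfl
  have hG00 : ∀ ν, 0 ≤ G0 ν := by
    intro ν
    rw [hG0ν]
    split_ifs
    · exact le_rfl
    · exact hG ν
  -- the key identity
  have hkey : ∀ ν : S.prm, (k : ℤ) * S.form P (cc S ν) =
      S.form S.A (cc S ν) + S.form (S.cl Z) (cc S ν) + S.form (S.cl G0) (cc S ν) := by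
    intro ν
    have h1 : S.form (S.cl G) (cc S ν) = S.form (S.cl Z) (cc S ν) + S.form (S.cl G0) (cc S ν) := by
      rw [← hsum, map_add, map_add, LinearMap.add_apply]
    have h2 : S.form (S.cl G) (cc S ν) = (k : ℤ) * S.form P (cc S ν) - S.form S.A (cc S ν) := by
      rw [hGc, map_add, map_neg, map_nsmul, LinearMap.add_apply, LinearMap.neg_apply,
        LinearMap.smul_apply, nsmul_eq_mul]
      ring
    linarith
  have hA : ∀ ν : S.prm, 1 ≤ S.form S.A (cc S ν) := fun ν => S.A_pos ν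
  have hperp : ∀ ν ∈ perp S P, S.form (S.cl Z) (cc S ν) ≤ -1 := by
    intro ν hν
    have h1 := hkey ν
    have h2 : S.form P (cc S ν) = 0 := hν
    have h3 : 0 ≤ S.form (S.cl G0) (cc S ν) :=
      form_cc_nonneg S hG00 ν (by rw [hG0ν, if_neg (fun h => h hν)])
    have h4 := hA ν
    rw [h2, mul_zero] at h1
    linarith
  have hsupp : ∀ ν, Z ν ≠ 0 → ν ∈ perp S P := by
    intro ν h
    by_contra h1
    exact h (by rw [hZν, if_neg h1])
  have hPZ : S.form P (S.cl Z) = 0 := by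
    rw [form_cl]
    apply Finset.sum_eq_zero
    intro ν hν
    have h1 : S.form P (cc S ν) = 0 := hsupp ν (Finsupp.mem_support_iff.1 hν)
    simp only [h1, mul_zero]
  have hZP : S.form (S.cl Z) P = 0 := by rw [S.symm]; exact hPZ
  have habs : ∀ ν ∈ G.support, |S.form (S.cl Z) (cc S ν)| ≤
      ∑ ν ∈ G.support, |S.form (S.cl Z) (cc S ν)| := fun ν hν =>
    Finset.single_le_sum (f := fun ν => |S.form (S.cl Z) (cc S ν)|)
      (fun _ _ => abs_nonneg _) hν
  set s : ℤ := ∑ ν ∈ G.support, |S.form (S.cl Z) (cc S ν)| with hs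
  have hs0 : 0 ≤ s := Finset.sum_nonneg fun _ _ => abs_nonneg _
  set t : ℤ := |S.form (S.cl Z) (S.cl Z)| with ht
  have ht0 : 0 ≤ t := abs_nonneg _
  have hk1 : (((k : ℤ) + 1 + s + t).toNat : ℤ) = (k : ℤ) + 1 + s + t :=
    Int.toNat_of_nonneg (by positivity)
  refine ⟨Z, ((k : ℤ) + 1 + s + t).toNat, ?_, hZ0, hsupp, ?_, ?_, ?_⟩
  · have : (1 : ℤ) ≤ (((k : ℤ) + 1 + s + t).toNat : ℤ) := by
      rw [hk1]
      have : (0 : ℤ) ≤ k := Int.natCast_nonneg k
      linarith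
    exact_mod_cast this
  · intro ν hν
    have h1 := hperp ν hν
    rcases (hZ0 ν).eq_or_lt with h2 | h2
    · have := form_cc_nonneg S hZ0 ν h2.symm
      linarith
    · exact h2
  · intro ν
    have hform : S.form (((k : ℤ) + 1 + s + t).toNat • P - S.cl Z) (cc S ν) =
        ((k : ℤ) + 1 + s + t) * S.form P (cc S ν) - S.form (S.cl Z) (cc S ν) := by
      rw [map_sub, map_nsmul, LinearMap.sub_apply, LinearMap.smul_apply, nsmul_eq_mul, hk1]
    rw [hform]
    have hPν := hP ν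
    by_cases hν : ν ∈ perp S P
    · have h1 := hperp ν hν
      have h2 : S.form P (cc S ν) = 0 := hν
      rw [h2, mul_zero]
      linarith
    · have hP1 : 1 ≤ S.form P (cc S ν) := by
        have h1 : S.form P (cc S ν) ≠ 0 := hν
        omega
      by_cases hGν : G ν = 0
      · have h1 := hkey ν
        have h2 := hA ν
        have h3 : 0 ≤ S.form (S.cl G0) (cc S ν) :=
          form_cc_nonneg S hG00 ν (by rw [hG0ν, if_pos hν, hGν])
        nlinarith
      · have h1 := habs ν (Finsupp.mem_support_iff.2 hGν)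
        have h2 := le_abs_self (S.form (S.cl Z) (cc S ν))
        have h3 : (0 : ℤ) ≤ k := Int.natCast_nonneg k
        nlinarith
  · have hform : S.form (((k : ℤ) + 1 + s + t).toNat • P - S.cl Z)
        (((k : ℤ) + 1 + s + t).toNat • P - S.cl Z) =
        ((k : ℤ) + 1 + s + t) ^ 2 * S.form P P + S.form (S.cl Z) (S.cl Z) := by
      simp only [map_sub, map_nsmul, LinearMap.sub_apply, LinearMap.smul_apply, nsmul_eq_mul, hk1,
        hPZ, hZP]
      ring
    rw [hform]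
    have h1 := neg_abs_le (S.form (S.cl Z) (S.cl Z))
    have h2 : (0 : ℤ) ≤ k := Int.natCast_nonneg k
    have h3 : 1 ≤ S.form P P := hPP
    have h4 : ((k : ℤ) + 1 + s + t) ≤ ((k : ℤ) + 1 + s + t) ^ 2 := by nlinarith
    have h5 : ((k : ℤ) + 1 + s + t) ^ 2 ≤ ((k : ℤ) + 1 + s + t) ^ 2 * S.form P P := by
      nlinarith [sq_nonneg ((k : ℤ) + 1 + s + t)]
    linarith

end Pool.Agent.LibKN
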