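import Pool.Agent.LibKN.Defs
import Pool.Agent.LibKN.B1
import Pool.Agent.LibKN.C1
import Pool.Agent.LibKN.P4

/-! Surfaces: Nakai, base point freeness, rational peeling; row P6. -/

set_option autoImplicit false

open Pool.Agent.LibGMM

namespace Pool.Agent.LibKN

open Pool.Agent.LibK

variable {L : Type} [Field L] [Algebra ℂ L]

theorem p6_step (S : SurfA L) {P : S.Λ} (hP : Nef S P) (hPP : 0 < S.form P P) {N : ℕ}
    (hN : 1 ≤ N) {b : S.prm →₀ ℤ} (hb1 : ∀ ν, b ν < N) (hb2 : ∀ ν, ν ∉ perp S P → 0 ≤ b ν)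
    (hb3 : ∀ ν ∈ perp S P, S.form (N • S.K + S.cl b) (cc S ν) = 0) {D : S.Λ}
    (hD : ∀ ν ∈ perp S P, S.form D (cc S ν) = 0) {Z : S.prm →₀ ℤ} {ν : S.prm}
    (hν : ν ∈ perp S P) (hneg : S.form (S.cl Z + S.K) (cc S ν) < 0)
    (hs : s2 S (D - S.cl Z) = 0) : s2 S (D - S.cl (Z - Finsupp.single ν 1)) = 0 := by
  have hE := pa_perp_curve S hP hPP hN hb1 hb2 hb3 hν
  have h1 : S.cl (Z - Finsupp.single ν 1) = S.cl Z - cc S ν := by
    rw [map_sub]
    rfl
  rw [h1]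
  have h2 := hD ν hν
  have h3 : -1 ≤ S.form (D - (S.cl Z - cc S ν)) (cc S ν) := by
    simp only [map_sub, map_add, LinearMap.sub_apply, LinearMap.add_apply] at hneg ⊢
    omega
  have h4 := s2_step_rat S ν hE _ h3
  have h5 : D - (S.cl Z - cc S ν) - cc S ν = D - S.cl Z := by abel
  rw [h5, hs] at h4
  exact le_antisymm h4 (s2_nonneg S _)

theorem p6_sum (S : SurfA L) (Z : S.prm →₀ ℤ) (ν : S.prm) :
    ((Z - Finsupp.single ν 1).sum fun _ m => m) = (Z.sum fun _ m => m) - 1 := by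
  rw [Finsupp.sum_sub_index (fun _ _ _ => rfl), Finsupp.sum_single_index rfl]

theorem p6_pos {α : Type} (Z : α →₀ ℤ) (hZ : ∀ ν, 0 ≤ Z ν) {ν : α} (hν : 0 < Z ν) :
    0 < (Z.sum fun _ m => m) := by
  have h1 : Z ν ≤ ∑ μ ∈ Z.support, Z μ :=
    Finset.single_le_sum (fun μ _ => hZ μ) (Finsupp.mem_support_iff.2 hν.ne')
  exact lt_of_lt_of_le hν h1

theorem peel (S : SurfA L) {P : S.Λ} (hP : Nef S P) (hPP : 0 < S.form P P) {N : ℕ}
    (hN : 1 ≤ N) {b : S.prm →₀ ℤ} (hb1 : ∀ ν, b ν < N) (hb2 : ∀ ν, ν ∉ perp S P → 0 ≤ b ν)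
    (hb3 : ∀ ν ∈ perp S P, S.form (N • S.K + S.cl b) (cc S ν) = 0) {D : S.Λ}
    (hD : ∀ ν ∈ perp S P, S.form D (cc S ν) = 0) {κ : Set S.prm} (hκ : κ ⊆ perp S P)
    (hκ2 : ∀ ν ∈ κ, ∀ μ ∈ perp S P, μ ∉ κ → S.form (cc S ν) (cc S μ) = 0) (n : ℕ) :
    ∀ Z : S.prm →₀ ℤ, (∀ ν, 0 ≤ Z ν) → (∀ ν, Z ν ≠ 0 → ν ∈ perp S P) → (∃ ν ∈ κ, 0 < Z ν) →
      (Z.sum fun _ m => m) ≤ n → s2 S (D - S.cl Z) = 0 →
      s2 S D = 0 ∧ ∃ ν ∈ κ, s2 S (D - cc S ν) = 0 := by
  classical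
  induction n with
  | zero =>
    intro Z hZ _ hex hsum _
    obtain ⟨ν, _, hν⟩ := hex
    have h1 := p6_pos Z hZ hν
    push_cast at hsum
    omega
  | succ n ih =>
    intro Z hZ hZP hex hsum hs
    obtain ⟨ν₀, hν₀, hpos⟩ := hex
    -- the common part of the two cases
    have hW : ∀ ν, 0 < Z ν → ν ∈ perp S P → S.form (S.cl Z + S.K) (cc S ν) < 0 →
        (∀ μ, 0 ≤ (Z - Finsupp.single ν 1 : S.prm →₀ ℤ) μ) ∧
        (∀ μ, (Z - Finsupp.single ν 1 : S.prm →₀ ℤ) μ ≠ 0 → μ ∈ perp S P) ∧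
        ((Z - Finsupp.single ν 1 : S.prm →₀ ℤ).sum fun _ m => m) ≤ n ∧
        s2 S (D - S.cl (Z - Finsupp.single ν 1 : S.prm →₀ ℤ)) = 0 := by
      intro ν hνZ hνP hneg
      refine ⟨fun μ => ?_, fun μ hμ => ?_, ?_, p6_step S hP hPP hN hb1 hb2 hb3 hD hνP hneg hs⟩
      · rw [Finsupp.sub_apply, Finsupp.single_apply]
        have := hZ μ
        split_ifs with h
        · subst h
          omega
        · omega
      · by_cases h : ν = μ
        · exact h ▸ hνP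
        · rw [Finsupp.sub_apply, Finsupp.single_apply, if_neg h, sub_zero] at hμ
          exact hZP μ hμ
      · rw [p6_sum]
        push_cast at hsum
        omega
    have hf1 : ∀ μ, μ ∉ κ → (Z.filter (fun ν => ν ∉ κ)) μ = Z μ :=
      fun μ h => Finsupp.filter_apply_pos (fun ν => ν ∉ κ) Z h
    have hf2 : ∀ μ, μ ∈ κ → (Z.filter (fun ν => ν ∉ κ)) μ = 0 :=
      fun μ h => Finsupp.filter_apply_neg (fun ν => ν ∉ κ) Z (not_not.2 h)
    by_cases hZ0 : Z.filter (fun ν => ν ∉ κ) = 0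
    · -- Case 2
      have hsupp : ∀ μ, Z μ ≠ 0 → μ ∈ κ := by
        intro μ hμ
        by_contra hμκ
        rw [← hf1 μ hμκ, hZ0] at hμ
        exact hμ rfl
      have hne : Z ≠ 0 := by
        intro h
        rw [h] at hpos
        simp at hpos
      obtain ⟨-, ν, hνZ, hneg⟩ := pa_perp S hP hPP hN hb1 hb2 hb3 hZ hZP hne
      have hνκ : ν ∈ κ := hsupp ν hνZ.ne'
      obtain ⟨w1, w2, w3, w4⟩ := hW ν hνZ (hκ hνκ) hneg
      by_cases hW0 : (Z - Finsupp.single ν 1 : S.prm →₀ ℤ) = 0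
      · rw [hW0, map_zero, sub_zero] at w4
        have hZe : Z = Finsupp.single ν 1 := sub_eq_zero.1 hW0
        rw [hZe] at hs
        exact ⟨w4, ν, hνκ, hs⟩
      · obtain ⟨μ, hμ⟩ : ∃ μ, (Z - Finsupp.single ν 1 : S.prm →₀ ℤ) μ ≠ 0 := by
          by_contra hcon
          push Not at hcon
          exact hW0 (Finsupp.ext hcon)
        have hμκ : μ ∈ κ := by
          by_cases h : ν = μ
          · exact h ▸ hνκ
          · rw [Finsupp.sub_apply, Finsupp.single_apply, if_neg h, sub_zero] at hμ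
            exact hsupp μ hμ
        exact ih _ w1 w2 ⟨μ, hμκ, lt_of_le_of_ne (w1 μ) (Ne.symm hμ)⟩ w3 w4
    · -- Case 1
      have h1 : ∀ μ, 0 ≤ (Z.filter (fun ν => ν ∉ κ)) μ := by
        intro μ
        by_cases h : μ ∈ κ
        · rw [hf2 μ h]
        · rw [hf1 μ h]
          exact hZ μ
      have h2 : ∀ μ, (Z.filter (fun ν => ν ∉ κ)) μ ≠ 0 → μ ∈ perp S P := by
        intro μ hμ
        by_cases h : μ ∈ κ
        · exact absurd (hf2 μ h) hμ
        · rw [hf1 μ h] at hμ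
          exact hZP μ hμ
      obtain ⟨-, ν, hνZ, hneg⟩ := pa_perp S hP hPP hN hb1 hb2 hb3 h1 h2 hZ0
      have hνP := h2 ν hνZ.ne'
      have hνκ : ν ∉ κ := by
        intro h
        rw [hf2 ν h] at hνZ
        exact lt_irrefl _ hνZ
      rw [hf1 ν hνκ] at hνZ
      have hsplit : Z = Z.filter (fun ν => ν ∈ κ) + Z.filter (fun ν => ν ∉ κ) :=
        (Finsupp.filter_add_filter_not Z fun ν => ν ∈ κ).symm
      have hzero : S.form (S.cl (Z.filter (fun ν => ν ∈ κ))) (cc S ν) = 0 := by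
        rw [S.symm, form_cl]
        refine Finset.sum_eq_zero fun μ hμ => ?_
        rw [Finsupp.support_filter, Finset.mem_filter] at hμ
        have h3 := hκ2 μ hμ.2 ν hνP hνκ
        rw [S.symm] at h3
        show _ * S.form (cc S ν) (cc S μ) = 0
        rw [h3, mul_zero]
      have hneg2 : S.form (S.cl Z + S.K) (cc S ν) < 0 := by
        rw [hsplit, map_add]
        simp only [map_add, LinearMap.add_apply] at hneg ⊢
        rw [hzero]
        omega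
      obtain ⟨w1, w2, w3, w4⟩ := hW ν hνZ hνP hneg2
      refine ih _ w1 w2 ⟨ν₀, hν₀, ?_⟩ w3 w4
      have hne : ν ≠ ν₀ := by
        rintro rfl
        exact hνκ hν₀
      rw [Finsupp.sub_apply, Finsupp.single_apply, if_neg hne, sub_zero]
      exact hpos

end Pool.Agent.LibKN
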