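import Pool.Agent.LibKN.Defs
import Pool.Agent.LibKN.B3

/-! Surfaces: Nakai, base point freeness, rational peeling; row P7. -/

set_option autoImplicit false

open Pool.Agent.LibGMM

namespace Pool.Agent.LibKN

open Pool.Agent.LibK

variable {L : Type} [Field L] [Algebra ℂ L]

theorem exists_sec_nonvan (S : SurfA L) {D : S.prm →₀ ℤ} {ν : S.prm}
    (hν : 2 + S.form (cc S ν) (cc S ν) + S.form S.K (cc S ν) = 0)
    (hD : S.form (S.cl D) (cc S ν) = 0) (h1 : s2 S (S.cl D) = 0)
    (h2 : s2 S (S.cl D - cc S ν) = 0) :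
    ∃ f ∈ secD S.prm D, f ≠ 0 ∧ ν.1.ord f + D ν = 0 := by
  classical
  have hmono := h0_mono_cc S (S.K - (S.cl D - cc S ν)) ν
  have he : S.K - (S.cl D - cc S ν) - cc S ν = S.K - S.cl D := by abel
  rw [he] at hmono
  have hlt : S.h0 (S.cl D - cc S ν) < S.h0 (S.cl D) := by
    have hmono' : (S.h0 (S.K - S.cl D) : ℤ) ≤ S.h0 (S.K - (S.cl D - cc S ν)) := by
      exact_mod_cast hmono
    have hD' : S.form (cc S ν) (S.cl D) = 0 := by rw [S.symm]; exact hD
    have hK : S.form (cc S ν) S.K = S.form S.K (cc S ν) := S.symm _ _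
    unfold s2 at h1 h2
    simp only [map_sub, LinearMap.sub_apply] at h1 h2
    rw [hD, hD', hK] at h2
    have : (S.h0 (S.cl D - cc S ν) : ℤ) < S.h0 (S.cl D) := by linarith
    exact_mod_cast this
  have hcl : S.cl (D - Finsupp.single ν 1) = S.cl D - cc S ν := by
    rw [map_sub]
    rfl
  rw [← hcl, S.h0_cl, S.h0_cl] at hlt
  have hle : secD S.prm (D - Finsupp.single ν 1) ≤ secD S.prm D := by
    intro f hf μ hf0
    have h3 := hf μ hf0
    rw [Finsupp.sub_apply] at h3
    have h4 : (0 : ℤ) ≤ (Finsupp.single ν 1 : S.prm →₀ ℤ) μ := by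
      rw [Finsupp.single_apply]
      split_ifs <;> omega
    omega
  have hne : ∃ f ∈ secD S.prm D, f ∉ secD S.prm (D - Finsupp.single ν 1) := by
    by_contra hcon
    push Not at hcon
    have h5 : secD S.prm (D - Finsupp.single ν 1) = secD S.prm D := le_antisymm hle hcon
    rw [h5] at hlt
    exact lt_irrefl _ hlt
  obtain ⟨f, hf, hfn⟩ := hne
  have hf0 : f ≠ 0 := by
    rintro rfl
    exact hfn (Submodule.zero_mem _)
  refine ⟨f, hf, hf0, ?_⟩
  by_contra hcon
  apply hfn
  intro μ _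
  have h6 := hf μ hf0
  rw [Finsupp.sub_apply, Finsupp.single_apply]
  split_ifs with h7
  · subst h7
    omega
  · omega

end Pool.Agent.LibKN
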