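import Pool.Agent.LibKN.Defs
import Pool.Agent.LibKN.B1
import Pool.Agent.LibKN.B2

/-! Surfaces: Nakai, base point freeness, rational peeling; row P8. -/

set_option autoImplicit false

open Pool.Agent.LibGMM

namespace Pool.Agent.LibKN

open Pool.Agent.LibK

variable {L : Type} [Field L] [Algebra ℂ L]

theorem gen_on_perp (S : SurfA L) {D : S.prm →₀ ℤ} {κ : Set S.prm}
    (hD : ∀ ν ∈ κ, S.form (S.cl D) (cc S ν) = 0)
    (hκ : ∀ ν ∈ κ, ∀ μ ∈ κ, Relation.ReflTransGen
      (fun a b : S.prm => b ∈ κ ∧ 0 < S.form (cc S a) (cc S b)) ν μ)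
    {f : L} (hf : f ∈ secD S.prm D) (hf0 : f ≠ 0) {ν : S.prm} (hν : ν ∈ κ)
    (h : ν.1.ord f + D ν = 0) {x : Subalgebra ℂ L} (hx : x ∈ S.pts) {μ : S.prm} (hμ : μ ∈ κ)
    (hxμ : Thr x μ.1) : GenAt S.prm x D f := by
  classical
  obtain ⟨G, hG1, hG0, hGcl⟩ := exists_div S hf hf0
  have hGν : G ν = 0 := by rw [hG1]; exact h
  have hstep : ∀ a : S.prm, Relation.ReflTransGen
      (fun a b : S.prm => b ∈ κ ∧ 0 < S.form (cc S a) (cc S b)) ν a → a ∈ κ ∧ G a = 0 := by
    intro a ha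
    induction ha with
    | refl => exact ⟨hν, hGν⟩
    | @tail a b _ hab ih =>
      obtain ⟨haκ, hGa⟩ := ih
      obtain ⟨hbκ, hpos⟩ := hab
      refine ⟨hbκ, ?_⟩
      have h1 : S.form (cc S a) (S.cl G) = 0 := by
        rw [hGcl, S.symm]
        exact hD a haκ
      rw [form_cl] at h1
      unfold Finsupp.sum at h1
      have hnn : ∀ c ∈ G.support, 0 ≤ G c * S.form (cc S a) (cc S c) := by
        intro c hc
        have hca : a ≠ c := by
          rintro rfl
          exact (Finsupp.mem_support_iff.1 hc) hGa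
        exact mul_nonneg (hG0 c) (S.C1' a c hca)
      have h2 := (Finset.sum_eq_zero_iff_of_nonneg hnn).1 h1
      by_contra hb
      have h3 := h2 b (Finsupp.mem_support_iff.2 hb)
      rcases mul_eq_zero.1 h3 with h4 | h4
      · exact hb h4
      · omega
  have hGμ : G μ = 0 := (hstep μ (hκ ν hν μ hμ)).2
  refine ⟨hf, hf0, fun ν' hν' => ?_⟩
  by_contra hne
  have h1 : 0 < G ν' := by
    have h2 := hG0 ν'
    have h3 : G ν' ≠ 0 := by rw [hG1]; exact hne
    omega
  have h2 := S.C3 G (Finsupp.single μ 1) hG0 (fun c => by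
    rw [Finsupp.single_apply]
    split_ifs <;> norm_num) (fun c => by
      by_cases hc : c = μ
      · left; rw [hc]; exact hGμ
      · right; rw [Finsupp.single_apply, if_neg (fun h => hc h.symm)]) x hx ⟨ν', hν', h1⟩
      ⟨μ, hxμ, by rw [Finsupp.single_apply, if_pos rfl]; norm_num⟩
  rw [hGcl] at h2
  have h3 := hD μ hμ
  unfold cc at h3
  omega

end Pool.Agent.LibKN
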