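import Pool.Agent.LibKN.Defs
import Pool.Agent.LibKN.E6
import Pool.Agent.LibKN.P4
import Pool.Agent.LibKN.P5
import Pool.Agent.LibKN.P6
import Pool.Agent.LibKN.P7
import Pool.Agent.LibKN.P8

/-! Surfaces: Nakai, base point freeness, rational peeling; row P9. -/

set_option autoImplicit false

open Pool.Agent.LibGMM

namespace Pool.Agent.LibKN

open Pool.Agent.LibK

variable {L : Type} [Field L] [Algebra ℂ L]

theorem P9_comp (S : SurfA L) (Q : Set S.prm) (E : S.prm) (hE : E ∈ Q) :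
    ∃ κ : Set S.prm, κ ⊆ Q ∧ E ∈ κ ∧
      (∀ ν ∈ κ, ∀ μ ∈ Q, μ ∉ κ → S.form (cc S ν) (cc S μ) = 0) ∧
      (∀ ν ∈ κ, ∀ μ ∈ κ, Relation.ReflTransGen
        (fun a b : S.prm => b ∈ κ ∧ 0 < S.form (cc S a) (cc S b)) ν μ) := by
  let R : S.prm → S.prm → Prop := fun a b => b ∈ Q ∧ 0 < S.form (cc S a) (cc S b)
  let κ : Set S.prm := {μ | Relation.ReflTransGen R E μ}
  have hsub : κ ⊆ Q := by
    intro μ hμ
    have h : Relation.ReflTransGen R E μ := hμ
    rcases Relation.ReflTransGen.cases_tail h with h1 | ⟨c, _, hc⟩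
    · rw [h1]; exact hE
    · exact hc.1
  refine ⟨κ, hsub, Relation.ReflTransGen.refl, ?_, ?_⟩
  · intro ν hν μ hμ hμκ
    have hne : ν ≠ μ := by
      rintro rfl
      exact hμκ hν
    have h1 := S.C1' ν μ hne
    rcases h1.lt_or_eq with h2 | h2
    · exact absurd (Relation.ReflTransGen.tail (show Relation.ReflTransGen R E ν from hν)
        ⟨hμ, h2⟩) hμκ
    · exact h2.symm
  · -- from E to anything inside κ
    have hto : ∀ μ, Relation.ReflTransGen R E μ → Relation.ReflTransGen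
        (fun a b : S.prm => b ∈ κ ∧ 0 < S.form (cc S a) (cc S b)) E μ := by
      intro μ h
      induction h with
      | refl => exact Relation.ReflTransGen.refl
      | tail h1 h2 ih =>
        exact ih.tail ⟨Relation.ReflTransGen.tail h1 h2, h2.2⟩
    have hfrom : ∀ μ, Relation.ReflTransGen R E μ → Relation.ReflTransGen
        (fun a b : S.prm => b ∈ κ ∧ 0 < S.form (cc S a) (cc S b)) μ E := by
      intro μ h
      induction h with
      | refl => exact Relation.ReflTransGen.refl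
      | tail h1 h2 ih =>
        refine Relation.ReflTransGen.head ⟨h1, ?_⟩ ih
        rw [S.symm]
        exact h2.2
    intro ν hν μ hμ
    exact (hfrom ν hν).trans (hto μ hμ)

theorem prop_iii {𝒮 : SurfA L → Prop} (h𝒮 : BlowUpClosed 𝒮) {S : SurfA L} (hS : 𝒮 S)
    {D : S.prm →₀ ℤ} (hP : Nef S (S.cl D)) (hPP : 0 < S.form (S.cl D) (S.cl D)) {N : ℕ}
    (hN : 1 ≤ N) {b : S.prm →₀ ℤ} (hb1 : ∀ ν, b ν < N)
    (hb2 : ∀ ν, 0 < S.form (S.cl D) (cc S ν) → 0 ≤ b ν)
    (hb3 : ∀ ν, S.form (S.cl D) (cc S ν) = 0 → S.form (N • S.K + S.cl b) (cc S ν) = 0) :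
    ∃ n : ℕ, 1 ≤ n ∧ Bpf S (n • D) := by
  classical
  have hb2' : ∀ ν, ν ∉ perp S (S.cl D) → 0 ≤ b ν := by
    intro ν hν
    apply hb2
    exact lt_of_le_of_ne (hP ν) (fun h => hν h.symm)
  have hb3' : ∀ ν ∈ perp S (S.cl D), S.form (N • S.K + S.cl b) (cc S ν) = 0 := by
    intro ν hν
    exact hb3 ν hν
  obtain ⟨Z, k1, hk1, hZ0, hZP, hZpos, hZ1, hZ2⟩ := exists_Z1 S hP hPP
  have hcl : S.cl (k1 • D - Z) = k1 • S.cl D - S.cl Z := by
    rw [map_sub, map_nsmul]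
  obtain ⟨n0, hn0, hbpf, hs2⟩ := nakai_bpf h𝒮 hS (D := k1 • D - Z)
    (by rw [hcl]; exact hZ1) (by rw [hcl]; exact hZ2)
  have hnD : ∀ ν, ((n0 * k1) • D) ν = (n0 • (k1 • D - Z)) ν + n0 * Z ν := by
    intro ν
    simp only [Finsupp.smul_apply, Finsupp.sub_apply, nsmul_eq_mul,
      Nat.cast_mul]
    ring
  refine ⟨n0 * k1, Nat.mul_pos hn0 hk1, ?_⟩
  intro x hx
  by_cases hE : ∃ E ∈ perp S (S.cl D), Thr x E.1
  · obtain ⟨E, hEP, hxE⟩ := hE
    obtain ⟨κ, hκ, hEκ, hκ2, hκ3⟩ := P9_comp S _ E hEP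
    have hD' : ∀ ν ∈ perp S (S.cl D), S.form ((n0 * k1) • S.cl D) (cc S ν) = 0 := by
      intro ν hν
      have h1 : S.form (S.cl D) (cc S ν) = 0 := hν
      rw [map_nsmul, LinearMap.smul_apply, h1, smul_zero]
    have hclZ : (n0 * k1) • S.cl D - S.cl (n0 • Z) = n0 • S.cl (k1 • D - Z) := by
      rw [hcl, map_nsmul, nsmul_sub, mul_nsmul']
    obtain ⟨h1, ν, hν, h2⟩ := peel S hP hPP hN hb1 hb2' hb3' (D := (n0 * k1) • S.cl D) hD' hκ hκ2
      (((n0 • Z).sum fun _ m => m).toNat) (n0 • Z)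
      (by
        intro ν
        simp only [Finsupp.coe_smul, Pi.smul_apply, nsmul_eq_mul]
        exact mul_nonneg (by positivity) (hZ0 ν))
      (by
        intro ν h
        apply hZP
        intro h3
        apply h
        simp only [Finsupp.coe_smul, Pi.smul_apply, h3, smul_zero])
      ⟨E, hEκ, by
        simp only [Finsupp.coe_smul, Pi.smul_apply, nsmul_eq_mul]
        exact mul_pos (by exact_mod_cast hn0) (hZpos E hEP)⟩
      (Int.self_le_toNat _)
      (by rw [hclZ]; exact hs2)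
    have hclD : S.cl ((n0 * k1) • D) = (n0 * k1) • S.cl D := map_nsmul _ _ _
    have hκD : ∀ ν ∈ κ, S.form (S.cl ((n0 * k1) • D)) (cc S ν) = 0 := by
      intro ν hν
      rw [hclD]
      exact hD' ν (hκ hν)
    obtain ⟨f, hf, hf0, hfν⟩ := exists_sec_nonvan S (D := (n0 * k1) • D) (ν := ν)
      (pa_perp_curve S hP hPP hN hb1 hb2' hb3' (hκ hν)) (hκD ν hν) (by rw [hclD]; exact h1)
      (by rw [hclD]; exact h2)
    exact ⟨f, gen_on_perp S hκD hκ3 hf hf0 hν hfν hx hEκ hxE⟩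
  · obtain ⟨f, hf, hf0, hfx⟩ := hbpf x hx
    refine ⟨f, ?_, hf0, ?_⟩
    · intro ν hf0'
      have h1 := hf ν hf0'
      rw [hnD]
      have h2 : (0 : ℤ) ≤ n0 * Z ν := mul_nonneg (by positivity) (hZ0 ν)
      linarith
    · intro ν hν
      have h1 := hfx ν hν
      have h2 : Z ν = 0 := by
        by_contra h
        exact hE ⟨ν, hZP ν h, hν⟩
      rw [hnD, h2]
      linarith

end Pool.Agent.LibKN
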