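import Pool.Agent.LibK.Surf

/-!
THEOREM K, part A1b (Nakai, base point freeness, rational peeling): definitions.
-/

set_option autoImplicit false

open Pool.Agent.LibGMM

namespace Pool.Agent.LibKN

open Pool.Agent.LibK

section

variable {L : Type} [Field L] [Algebra ℂ L]

/-- The class of a prime divisor. -/
noncomputable def cc (S : SurfA L) (ν : S.prm) : S.Λ := S.cl (Finsupp.single ν 1)

/-- Twice the defect `s(D) = h0 D + h0 (K - D) - χ(D)` in the Riemann-Roch inequality. -/
noncomputable def s2 (S : SurfA L) (D : S.Λ) : ℤ :=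
  2 * ((S.h0 D : ℤ) + S.h0 (S.K - D)) - (2 + S.form D (D - S.K))

/-- The set of prime divisors orthogonal to `P`. -/
def perp (S : SurfA L) (P : S.Λ) : Set S.prm := {ν | S.form P (cc S ν) = 0}

/-- `P` is nef. -/
def Nef (S : SurfA L) (P : S.Λ) : Prop := ∀ ν : S.prm, 0 ≤ S.form P (cc S ν)

/-- `n • D` is generated by its sections at every closed point. -/
def Bpf (S : SurfA L) (D : S.prm →₀ ℤ) : Prop := ∀ x ∈ S.pts, ∃ f, GenAt S.prm x D f

end

end Pool.Agent.LibKN
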